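import Mathlib

/-!
# Congruent numbers from the parametrisation `n r ^ 2 = u v (u ^ 2 - v ^ 2)`
-/

set_option autoImplicit false

namespace Pool.Agent.V7H17.CC

/-- `x ^ 2 + a y ^ 2 = z ^ 2`, `x ^ 2 - a y ^ 2 = t ^ 2` is solvable in positive integers. -/
def Cong (a : ℕ) : Prop :=
  ∃ x y z t : ℕ, 0 < x ∧ 0 < y ∧ 0 < z ∧ 0 < t ∧ x ^ 2 + a * y ^ 2 = z ^ 2 ∧
    x ^ 2 = a * y ^ 2 + t ^ 2

theorem cong_of {n u v r : ℕ} (hv : 0 < v) (hr : 0 < r) (huv : 3 * v ≤ u)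
    (h : u ^ 3 * v = n * r ^ 2 + u * v ^ 3) : Cong n := by
  have hu : 0 < u := by omega
  have h1 : v ^ 2 + 2 * u * v < u ^ 2 := by nlinarith
  obtain ⟨d, hd⟩ := Nat.exists_eq_add_of_lt h1
  refine ⟨u ^ 2 + v ^ 2, 2 * r, (d + 1) + 4 * u * v, d + 1, by positivity, by positivity,
    by positivity, by positivity, ?_, ?_⟩
  · have hZ : (u : ℤ) ^ 3 * v = n * (r : ℤ) ^ 2 + u * (v : ℤ) ^ 3 := by exact_mod_cast h
    have hdZ : (u : ℤ) ^ 2 = (v : ℤ) ^ 2 + 2 * u * v + d + 1 := by exact_mod_cast hd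
    have : ((u : ℤ) ^ 2 + v ^ 2) ^ 2 + n * (2 * r) ^ 2 = ((d + 1) + 4 * u * v) ^ 2 := by
      have e : (d : ℤ) + 1 = u ^ 2 - v ^ 2 - 2 * u * v := by linarith
      rw [e]
      linear_combination -4 * hZ
    exact_mod_cast this
  · have hZ : (u : ℤ) ^ 3 * v = n * (r : ℤ) ^ 2 + u * (v : ℤ) ^ 3 := by exact_mod_cast h
    have hdZ : (u : ℤ) ^ 2 = (v : ℤ) ^ 2 + 2 * u * v + d + 1 := by exact_mod_cast hd
    have : ((u : ℤ) ^ 2 + v ^ 2) ^ 2 = n * (2 * r) ^ 2 + (d + 1) ^ 2 := by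
      have e : (d : ℤ) + 1 = u ^ 2 - v ^ 2 - 2 * u * v := by linarith
      rw [e]
      linear_combination 4 * hZ
    exact_mod_cast this

/-- differences of fourth powers divided by squares -/
theorem cong_fourth {n t m w : ℕ} (hm : 0 < m) (hw : 0 < w) (ht : 2 * m ≤ t)
    (h : w ^ 2 * n + m ^ 4 = t ^ 4) : Cong n := by
  have ht0 : 0 < t := by omega
  refine cong_of (u := t ^ 2) (v := m ^ 2) (r := t * m * w) (by positivity) (by positivity) ?_ ?_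
  · nlinarith
  · have hZ : (w : ℤ) ^ 2 * n + m ^ 4 = t ^ 4 := by exact_mod_cast h
    have : ((t : ℤ) ^ 2) ^ 3 * m ^ 2 = n * (t * m * w) ^ 2 + t ^ 2 * (m ^ 2) ^ 3 := by
      linear_combination -((t : ℤ) ^ 2 * m ^ 2) * hZ
    exact_mod_cast this

/-- `4 n = z (z ^ 2 + 6 z + 1)` -/
theorem cong_plus {n z : ℕ} (hz : 10 ≤ z) (h : 4 * n = z * (z ^ 2 + 6 * z + 1)) : Cong n := by
  obtain ⟨y, rfl⟩ : ∃ y, z = y + 1 := ⟨z - 1, by omega⟩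
  have hy : 9 ≤ y := by omega
  refine cong_of (u := (y + 2) ^ 2) (v := 4 * (y + 1)) (r := 4 * (y * (y + 2))) (by positivity)
    (by positivity) ?_ ?_
  · nlinarith
  · have hZ : 4 * (n : ℤ) = (y + 1) * ((y + 1) ^ 2 + 6 * (y + 1) + 1) := by exact_mod_cast h
    have : (((y : ℤ) + 2) ^ 2) ^ 3 * (4 * (y + 1)) =
        n * (4 * (y * (y + 2))) ^ 2 + (y + 2) ^ 2 * (4 * (y + 1)) ^ 3 := by
      linear_combination -(4 * (y : ℤ) ^ 2 * (y + 2) ^ 2) * hZ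
    exact_mod_cast this

/-- `4 n = z (z ^ 2 - 6 z + 1)` -/
theorem cong_minus {n z : ℕ} (hz : 20 ≤ z) (h : 4 * n + 6 * z ^ 2 = z * (z ^ 2 + 1)) : Cong n := by
  obtain ⟨y, rfl⟩ : ∃ y, z = y + 1 := ⟨z - 1, by omega⟩
  have hy : 19 ≤ y := by omega
  refine cong_of (u := y ^ 2) (v := 4 * (y + 1)) (r := 4 * (y * (y + 2))) (by positivity)
    (by positivity) ?_ ?_
  · nlinarith
  · have hZ : 4 * (n : ℤ) + 6 * (y + 1) ^ 2 = (y + 1) * ((y + 1) ^ 2 + 1) := by exact_mod_cast h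
    have : ((y : ℤ) ^ 2) ^ 3 * (4 * (y + 1)) =
        n * (4 * (y * (y + 2))) ^ 2 + y ^ 2 * (4 * (y + 1)) ^ 3 := by
      linear_combination -(4 * (y : ℤ) ^ 2 * (y + 2) ^ 2) * hZ
    exact_mod_cast this

end Pool.Agent.V7H17.CC
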