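import Mathlib

/-!
# From a positive proportion of the parameters to a power of `X`
-/

set_option autoImplicit false

namespace Pool.Agent.V7H17.CC

open Finset Filter Topology

theorem count_of (d : ℕ) (hd : 0 < d) (C K : ℕ) (hC : 0 < C) (f : ℕ → ℕ)
    (hf : Function.Injective f) (hb : ∀ s, f s ≤ (C * (s + K)) ^ d) (P : ℕ → Prop)
    (h : ∀ᶠ S : ℕ in atTop, ∃ G : Finset ℕ, (∀ s ∈ G, s < S ∧ P (f s)) ∧
      (S : ℝ) / 2 ≤ (G.card : ℝ)) :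
    ∀ᶠ X : ℝ in atTop,
      1 / (8 * (C : ℝ)) * X ^ (1 / (d : ℝ)) ≤ ({x : ℕ | (x : ℝ) ≤ X ∧ P x}.ncard : ℝ) := by
  classical
  have hd0 : (0 : ℝ) < d := by exact_mod_cast hd
  have hC0 : (0 : ℝ) < C := by exact_mod_cast hC
  have h1 : Tendsto (fun X : ℝ => X ^ (1 / (d : ℝ)) / C) atTop atTop :=
    (tendsto_rpow_atTop (by positivity)).atTop_div_const hC0
  have h2 : Tendsto (fun X : ℝ => ⌊X ^ (1 / (d : ℝ)) / C / 2⌋₊) atTop atTop :=
    tendsto_nat_floor_atTop.comp (h1.atTop_div_const two_pos)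
  filter_upwards [h2.eventually h, h1.eventually_ge_atTop 4, eventually_ge_atTop (0 : ℝ),
    h1.eventually_ge_atTop (2 * K : ℝ)] with X h3 h4 h5 h6'
  obtain ⟨G, hG1, hG2⟩ := h3
  set y : ℝ := X ^ (1 / (d : ℝ)) / C with hy
  have hfl : y / 2 - 1 ≤ (⌊y / 2⌋₊ : ℝ) := by
    have := Nat.lt_floor_add_one (y / 2)
    linarith
  have hfl2 : (⌊y / 2⌋₊ : ℝ) ≤ y / 2 := Nat.floor_le (by linarith)
  have hsub : ((G.image f : Finset ℕ) : Set ℕ) ⊆ {x : ℕ | (x : ℝ) ≤ X ∧ P x} := by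
    intro x hx
    rw [Finset.mem_coe, Finset.mem_image] at hx
    obtain ⟨s, hs, rfl⟩ := hx
    obtain ⟨hs1, hs2⟩ := hG1 s hs
    refine ⟨?_, hs2⟩
    have h6 : (f s : ℝ) ≤ ((C : ℝ) * (s + K)) ^ d := by exact_mod_cast hb s
    have h7 : ((s : ℝ) + K) ≤ y := by
      have : (s : ℝ) ≤ (⌊y / 2⌋₊ : ℝ) := by exact_mod_cast hs1.le
      linarith
    have h8 : (C : ℝ) * (s + K) ≤ X ^ (1 / (d : ℝ)) := by
      rw [hy, le_div_iff₀ hC0] at h7
      linarith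
    have h9 : ((C : ℝ) * (s + K)) ^ d ≤ (X ^ (1 / (d : ℝ))) ^ d :=
      pow_le_pow_left₀ (by positivity) h8 d
    refine h6.trans (h9.trans (le_of_eq ?_))
    rw [← Real.rpow_natCast, ← Real.rpow_mul h5, one_div_mul_cancel hd0.ne', Real.rpow_one]
  have hfin : {x : ℕ | (x : ℝ) ≤ X ∧ P x}.Finite := by
    apply (Set.finite_Iic ⌊X⌋₊).subset
    intro x hx
    exact Nat.le_floor hx.1
  have h6 := Set.ncard_le_ncard hsub hfin
  rw [Set.ncard_coe_finset, Finset.card_image_of_injective _ hf] at h6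
  have h7 : (G.card : ℝ) ≤ ({x : ℕ | (x : ℝ) ≤ X ∧ P x}.ncard : ℝ) := by exact_mod_cast h6
  have h8 : 1 / (8 * (C : ℝ)) * X ^ (1 / (d : ℝ)) = y / 8 := by
    rw [hy]
    field_simp
  rw [h8]
  linarith

end Pool.Agent.V7H17.CC
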