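import Pool.Agent.V7H17.CC.Quartic
import Pool.Agent.V7H17.CC.Count
import Pool.Agent.V7H17.CC.Cong

/-!
# Clusters of squarefree congruent numbers in prescribed residue classes
-/

set_option autoImplicit false

namespace Pool.Agent.V7H17.CC

open Finset Filter Topology

lemma base (u s t m : ℤ) (ht : (8 * u) ^ 3 ∣ t - 1)
    (hm : (8 * u) ^ 3 ∣ m - (1 + 16 * u ^ 2 * s * (32 * u - 1))) :
    ∃ j : ℤ, t ^ 4 - m ^ 4 = (8 * u) ^ 2 * (s + 8 * u * j) := by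
  obtain ⟨a, ha⟩ := ht
  obtain ⟨b, hb⟩ := hm
  have hm' : (8 * u) ^ 3 ∣ m - (1 - 16 * u ^ 2 * s) := by
    refine ⟨b + s, ?_⟩
    linear_combination hb
  obtain ⟨c, hc⟩ := hm'
  have ht2 : t = 1 + (8 * u) ^ 3 * a := by linarith
  have hm2 : m = 1 - 16 * u ^ 2 * s + (8 * u) ^ 3 * c := by linarith
  refine ⟨(4 * a + 6 * a ^ 2 * (8 * u) ^ 3 + 4 * a ^ 3 * (8 * u) ^ 6 + a ^ 4 * (8 * u) ^ 9) -
    3 * u * s ^ 2 + 32 * u ^ 3 * s ^ 3 - 128 * u ^ 5 * s ^ 4 -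
    (4 * (1 - 16 * u ^ 2 * s) ^ 3 * c + 6 * (1 - 16 * u ^ 2 * s) ^ 2 * c ^ 2 * (8 * u) ^ 3 +
      4 * (1 - 16 * u ^ 2 * s) * c ^ 3 * (8 * u) ^ 6 + c ^ 4 * (8 * u) ^ 9), ?_⟩
  rw [ht2, hm2]
  ring

lemma coprime_m0 (u s : ℕ) (hu : 0 < u) :
    (1 + 16 * u ^ 2 * s * (32 * u - 1)).Coprime ((8 * u) ^ 3) := by
  apply Nat.Coprime.pow_right
  apply Nat.Coprime.mul_right
  · apply Nat.isCoprime_iff_coprime.1
    refine ⟨1, -(2 * (u : ℤ) ^ 2 * s * (32 * u - 1)), ?_⟩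
    push_cast [Nat.cast_sub (by omega : 1 ≤ 32 * u)]
    ring
  · apply Nat.isCoprime_iff_coprime.1
    refine ⟨1, -(16 * (u : ℤ) * s * (32 * u - 1)), ?_⟩
    push_cast [Nat.cast_sub (by omega : 1 ≤ 32 * u)]
    ring

lemma primes_seq (W : ℕ) (hW : W ≠ 0) (z : ℕ) : ∀ (k : ℕ) (r : Fin k → ℕ),
    (∀ i, (r i).Coprime W) → ∃ m : Fin k → ℕ,
      (∀ i, (m i).Prime ∧ z < m i ∧ m i ≡ r i [MOD W]) ∧ ∀ i j, i < j → m j < m i := by
  intro k
  induction k with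
  | zero => exact fun r _ => ⟨fun i => i.elim0, fun i => i.elim0, fun i => i.elim0⟩
  | succ k ih =>
    intro r hr
    obtain ⟨m', h1, h2⟩ := ih (fun i => r i.succ) (fun i => hr i.succ)
    obtain ⟨p, hp1, hp2, hp3⟩ := Nat.forall_exists_prime_gt_and_modEq (z + ∑ i, m' i) hW (hr 0)
    have h3 : ∀ i, m' i ≤ ∑ i, m' i := fun i =>
      Finset.single_le_sum (f := m') (fun _ _ => Nat.zero_le _) (mem_univ i)
    refine ⟨Fin.cons p m', ?_, ?_⟩
    · intro i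
      refine Fin.cases ?_ (fun i => ?_) i
      · rw [Fin.cons_zero]
        exact ⟨hp2, by omega, hp3⟩
      · rw [Fin.cons_succ]
        exact h1 i
    · intro i j
      refine Fin.cases ?_ (fun i => ?_) i
      · refine Fin.cases ?_ (fun j => ?_) j
        · intro h
          exact absurd h (lt_irrefl _)
        · intro _
          rw [Fin.cons_zero, Fin.cons_succ]
          have := h3 j
          omega
      · refine Fin.cases ?_ (fun j => ?_) j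
        · intro h
          exact absurd h (by simp)
        · intro h
          rw [Fin.cons_succ, Fin.cons_succ]
          exact h2 i j (Fin.succ_lt_succ_iff.1 h)

lemma sqfree_of {n : ℕ} (h : ∀ p : ℕ, p.Prime → ¬ p ^ 2 ∣ n) : Squarefree n := by
  rw [Nat.squarefree_iff_prime_squarefree]
  intro p hp hd
  exact h p hp (by rwa [pow_two])

lemma window_inj {T Q w : ℕ} (hw : 0 < w) (hQ : w ^ 2 ≤ Q) :
    Function.Injective (fun s : ℕ => (T + Q * s) ^ 4 / w ^ 2) := by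
  apply StrictMono.injective
  apply strictMono_nat_of_lt_succ
  intro s
  have hw2 : 0 < w ^ 2 := by positivity
  have h1 : (T + Q * s) ^ 4 + w ^ 2 ≤ (T + Q * (s + 1)) ^ 4 := by
    have hQ0 : 0 < Q := by omega
    have h2 : (T + Q * s) ^ 4 + Q ^ 4 ≤ ((T + Q * s) + Q) ^ 4 := by
      have e : ((T + Q * s) + Q) ^ 4 = (T + Q * s) ^ 4 + Q ^ 4 +
        (4 * (T + Q * s) ^ 3 * Q + 6 * (T + Q * s) ^ 2 * Q ^ 2 + 4 * (T + Q * s) * Q ^ 3) := by ring
      omega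
    have h3 : Q ≤ Q ^ 4 := Nat.le_self_pow (by norm_num) _
    have e : T + Q * (s + 1) = (T + Q * s) + Q := by ring
    rw [e]
    omega
  show (T + Q * s) ^ 4 / w ^ 2 < (T + Q * (s + 1)) ^ 4 / w ^ 2
  calc (T + Q * s) ^ 4 / w ^ 2 < (T + Q * s) ^ 4 / w ^ 2 + 1 := Nat.lt_succ_self _
    _ = ((T + Q * s) ^ 4 + w ^ 2) / w ^ 2 := (Nat.add_div_right _ hw2).symm
    _ ≤ _ := Nat.div_le_div_right h1

lemma window_bound (T Q w s : ℕ) :
    (T + Q * s) ^ 4 / w ^ 2 ≤ ((T + Q + 1) * (s + 1)) ^ 4 := by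
  refine (Nat.div_le_self _ _).trans (Nat.pow_le_pow_left ?_ 4)
  nlinarith

/-- **Clusters.** -/
theorem clusters (k q : ℕ) (hq : 0 < q) (s : Fin k → ℕ) (hs : ∀ i, Squarefree (s i)) :
    ∃ L : ℕ, ∃ c : ℝ, 0 < c ∧ ∀ᶠ X : ℝ in atTop, c * X ^ (1 / 4 : ℝ) ≤
      ({x : ℕ | (x : ℝ) ≤ X ∧ ∃ n : Fin k → ℕ, StrictMono n ∧ ∀ i, n i ≤ x ∧ x ≤ n i + L ∧
        Squarefree (n i) ∧ n i ≡ s i [MOD q] ∧ Cong (n i)}.ncard : ℝ) := by
  classical
  obtain ⟨u, hu⟩ : ∃ u, u = 8 * q ^ 2 := ⟨_, rfl⟩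
  have hu0 : 0 < u := by rw [hu]; positivity
  obtain ⟨w, hw⟩ : ∃ w, w = 8 * u := ⟨_, rfl⟩
  have hw0 : 0 < w := by omega
  have hwq : w = (8 * q) ^ 2 := by rw [hw, hu]; ring
  obtain ⟨z, hz⟩ : ∃ z, z = 20 * k + 2 := ⟨_, rfl⟩
  obtain ⟨m, hm1, hm2⟩ := primes_seq ((8 * u) ^ 3) (by positivity) z k
    (fun i => 1 + 16 * u ^ 2 * s i * (32 * u - 1)) (fun i => coprime_m0 u (s i) hu0)
  -- the modulus
  obtain ⟨P, hP⟩ : ∃ P, P = ∏ p ∈ (range (z + 1)).filter (fun p => p.Prime ∧ ¬ p ∣ w), p :=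
    ⟨_, rfl⟩
  have hP0 : 0 < P := by
    rw [hP]
    exact Finset.prod_pos fun p hp => (mem_filter.1 hp).2.1.pos
  have hPdvd : ∀ p : ℕ, p.Prime → (p ∣ P ↔ p ≤ z ∧ ¬ p ∣ w) := by
    intro p hp
    constructor
    · intro h
      rw [hP, hp.prime.dvd_finsetProd_iff] at h
      obtain ⟨r, hr, hpr⟩ := h
      rw [mem_filter, mem_range] at hr
      have := (Nat.prime_dvd_prime_iff_eq hp hr.2.1).1 hpr
      rw [this]
      exact ⟨by omega, hr.2.2⟩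
    · rintro ⟨h1, h2⟩
      rw [hP]
      exact Finset.dvd_prod_of_mem _ (mem_filter.2 ⟨mem_range.2 (by omega), hp, h2⟩)
  have hcop : (w ^ 3).Coprime P := by
    apply Nat.Coprime.pow_left
    apply Nat.coprime_of_dvd
    intro p hp h1 h2
    exact ((hPdvd p hp).1 h2).2 h1
  obtain ⟨B, hB⟩ : ∃ B, B = ∑ i, m i := ⟨_, rfl⟩
  have hmB : ∀ i, m i ≤ B := fun i => by
    rw [hB]
    exact Finset.single_le_sum (f := m) (fun _ _ => Nat.zero_le _) (mem_univ i)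
  obtain ⟨Q, hQ⟩ : ∃ Q, Q = w ^ 3 * P := ⟨_, rfl⟩
  have hQ0 : 0 < Q := by rw [hQ]; positivity
  obtain ⟨T0, hT1, hT2⟩ := Nat.chineseRemainder hcop 1 0
  obtain ⟨T, hT⟩ : ∃ T, T = T0 + Q * (2 * B) := ⟨_, rfl⟩
  have hTB : 2 * B ≤ T := by
    rw [hT]
    nlinarith
  have htw : ∀ a : ℕ, ((8 * (u : ℤ)) ^ 3) ∣ ((T + Q * a : ℕ) : ℤ) - 1 := by
    intro a
    have h1 : T + Q * a ≡ 1 [MOD w ^ 3] := by
      have e : T + Q * a = T0 + w ^ 3 * (P * (2 * B) + P * a) := by rw [hT, hQ]; ring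
      rw [e]
      refine Nat.ModEq.trans ?_ hT1
      rw [Nat.modEq_iff_dvd]
      refine ⟨-((P * (2 * B) + P * a : ℕ) : ℤ), ?_⟩
      push_cast
      ring
    have h2 := (Nat.modEq_iff_dvd.1 h1.symm)
    rw [hw] at h2
    push_cast at h2 ⊢
    exact h2
  have htP : ∀ a : ℕ, P ∣ T + Q * a := by
    intro a
    have h1 : P ∣ T0 := (Nat.modEq_zero_iff_dvd).1 hT2
    rw [hT, hQ]
    refine dvd_add (dvd_add h1 ?_) ?_
    · exact Dvd.intro (w ^ 3 * (2 * B)) (by ring)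
    · exact Dvd.intro (w ^ 3 * a) (by ring)
  have hmw : ∀ i, ((8 * (u : ℤ)) ^ 3) ∣
      (m i : ℤ) - (1 + 16 * (u : ℤ) ^ 2 * s i * (32 * u - 1)) := by
    intro i
    have h1 := Nat.modEq_iff_dvd.1 (hm1 i).2.2.symm
    push_cast [Nat.cast_sub (by omega : 1 ≤ 32 * u)] at h1
    exact h1
  have hmt : ∀ i a, 2 * m i ≤ T + Q * a := by
    intro i a
    have := hmB i
    have h3 : 0 ≤ Q * a := Nat.zero_le _
    omega
  -- the values
  have hex : ∀ i a, ∃ n : ℕ, w ^ 2 * n + m i ^ 4 = (T + Q * a) ^ 4 ∧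
      (w : ℤ) ∣ (n : ℤ) - s i := by
    intro i a
    obtain ⟨j, hj⟩ := base u (s i) ((T + Q * a : ℕ) : ℤ) (m i) (htw a) (hmw i)
    have hw' : (w : ℤ) = 8 * u := by rw [hw]; push_cast; ring
    rw [← hw'] at hj
    have hpos : 0 ≤ ((s i : ℤ) + w * j) := by
      have h1 : (0 : ℤ) ≤ ((T + Q * a : ℕ) : ℤ) ^ 4 - (m i : ℤ) ^ 4 := by
        have h2 : m i ≤ T + Q * a := by have := hmt i a; omega
        have h3 := Nat.pow_le_pow_left h2 4
        have h4 : ((m i : ℤ)) ^ 4 ≤ ((T + Q * a : ℕ) : ℤ) ^ 4 := by exact_mod_cast h3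
        linarith
      rw [hj] at h1
      by_contra hneg
      push Not at hneg
      have hw2 : (0 : ℤ) < (w : ℤ) ^ 2 := by positivity
      nlinarith
    obtain ⟨n, hn⟩ := Int.eq_ofNat_of_zero_le hpos
    refine ⟨n, ?_, ?_⟩
    · rw [hn] at hj
      have : ((w : ℤ) ^ 2 * n + (m i : ℤ) ^ 4) = ((T + Q * a : ℕ) : ℤ) ^ 4 := by linarith
      exact_mod_cast this
    · refine ⟨j, ?_⟩
      rw [← hn]
      ring
  choose n hn1 hn2 using hex
  have hloc : ∀ i p a, p.Prime → (p ≤ z ∨ p ∣ Q) → ¬ p ^ 2 ∣ n i a := by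
    intro i p a hp hor hdiv
    by_cases hpw : p ∣ w
    · have h1 : p ∣ 8 * q := by
        rw [hwq] at hpw
        exact hp.dvd_of_dvd_pow hpw
      have h2 : p ^ 2 ∣ w := by
        rw [hwq]
        exact pow_dvd_pow_of_dvd h1 2
      have h3 : ((p ^ 2 : ℕ) : ℤ) ∣ (n i a : ℤ) - s i :=
        (Int.natCast_dvd_natCast.2 h2).trans (hn2 i a)
      have h4 : ((p ^ 2 : ℕ) : ℤ) ∣ (s i : ℤ) := by
        have := dvd_sub (Int.natCast_dvd_natCast.2 hdiv) h3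
        rwa [sub_sub_cancel] at this
      have h5 : p ^ 2 ∣ s i := Int.natCast_dvd_natCast.1 h4
      rw [pow_two] at h5
      exact hp.not_isUnit (hs i p h5)
    · have hpz : p ≤ z := by
        rcases hor with h | h
        · exact h
        · rw [hQ] at h
          rcases (hp.dvd_mul).1 h with h1 | h1
          · exact absurd (hp.dvd_of_dvd_pow h1) hpw
          · exact ((hPdvd p hp).1 h1).1
      have hpP : p ∣ P := (hPdvd p hp).2 ⟨hpz, hpw⟩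
      have h1 : p ∣ (T + Q * a) ^ 4 := dvd_pow (hpP.trans (htP a)) (by norm_num)
      rw [← hn1 i a] at h1
      have h2 : p ∣ w ^ 2 * n i a :=
        Dvd.dvd.mul_left ((dvd_pow_self _ two_ne_zero).trans hdiv) _
      have h3 : p ∣ m i ^ 4 := (Nat.dvd_add_right h2).1 h1
      have h4 := (Nat.prime_dvd_prime_iff_eq hp (hm1 i).1).1 (hp.dvd_of_dvd_pow h3)
      have := (hm1 i).2.1
      omega
  have hq4 := quartic k w T Q z B m n (fun i => (hm1 i).1.pos) hmB hTB hn1 hloc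
    (fun i p hp _ _ h => (Nat.prime_dvd_prime_iff_eq hp (hm1 i).1).1 h) (by omega) (by omega)
  have hw2Q : w ^ 2 ≤ Q := by
    rw [hQ]
    calc w ^ 2 ≤ w ^ 3 := Nat.pow_le_pow_right hw0 (by norm_num)
      _ ≤ w ^ 3 * P := Nat.le_mul_of_pos_right _ hP0
  have hfin := count_of 4 (by norm_num) (T + Q + 1) 1 (by omega)
    (fun a => (T + Q * a) ^ 4 / w ^ 2) (window_inj hw0 hw2Q) (window_bound T Q w)
    (fun x => ∃ n : Fin k → ℕ, StrictMono n ∧ ∀ i, n i ≤ x ∧ x ≤ n i + B ^ 4 ∧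
        Squarefree (n i) ∧ n i ≡ s i [MOD q] ∧ Cong (n i)) (by
      filter_upwards [hq4] with S hS
      obtain ⟨G, hG1, hG2⟩ := hS
      refine ⟨G, fun a ha => ⟨(hG1 a ha).1, fun i => n i a, ?_, fun i => ⟨?_, ?_, ?_, ?_, ?_⟩⟩, hG2⟩
      · intro i j hij
        have h1 := hn1 i a
        have h2 := hn1 j a
        have h3 : m j ^ 4 < m i ^ 4 := Nat.pow_lt_pow_left (hm2 i j hij) (by norm_num)
        have h4 : w ^ 2 * n i a < w ^ 2 * n j a := by omega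
        exact lt_of_mul_lt_mul_left h4 (Nat.zero_le _)
      · show n i a ≤ (T + Q * a) ^ 4 / w ^ 2
        rw [Nat.le_div_iff_mul_le (by positivity), ← hn1 i a, mul_comm]
        exact Nat.le_add_right _ _
      · have h1 : (T + Q * a) ^ 4 / w ^ 2 = n i a + m i ^ 4 / w ^ 2 := by
          rw [← hn1 i a, Nat.mul_add_div (by positivity)]
        rw [h1]
        have h2 : m i ^ 4 / w ^ 2 ≤ m i ^ 4 := Nat.div_le_self _ _
        have h3 : m i ^ 4 ≤ B ^ 4 := Nat.pow_le_pow_left (hmB i) 4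
        exact Nat.add_le_add_left (h2.trans h3) _
      · exact sqfree_of ((hG1 a ha).2 i)
      · have h1 : (q : ℤ) ∣ (n i a : ℤ) - s i := by
          refine dvd_trans ?_ (hn2 i a)
          rw [hwq]
          push_cast
          exact ⟨64 * q, by ring⟩
        exact (Nat.modEq_iff_dvd.2 h1).symm
      · exact cong_fourth (hm1 i).1.pos hw0 (hmt i a) (hn1 i a))
  have hC0 : (0 : ℝ) < ((T + Q + 1 : ℕ) : ℝ) := by positivity
  refine ⟨B ^ 4, 1 / (8 * ((T + Q + 1 : ℕ) : ℝ)), by positivity, ?_⟩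
  have e : (1 / ((4 : ℕ) : ℝ)) = (1 / 4 : ℝ) := by norm_num
  rw [e] at hfin
  exact hfin

end Pool.Agent.V7H17.CC
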