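import Pool.Agent.V7H17.CC.Pairs
import Pool.Agent.V7H17.CC.Clusters

/-!
# Short intervals with many squarefree congruent numbers in every class
-/

set_option autoImplicit false

namespace Pool.Agent.V7H17.CC

open Finset Filter Topology

lemma markov (J S q : ℕ) (hJ : 0 < J) (hq : 0 < q) (bad : ℕ → ℕ → ℕ → Prop)
    (h : ∀ r < q, ∀ D : Finset (ℕ × ℕ), (∀ x ∈ D, x.1 < J ∧ x.2 < S ∧ bad r x.1 x.2) →
      (D.card : ℝ) ≤ J * S / (4 * q)) :
    ∃ G : Finset ℕ, (∀ s ∈ G, s < S ∧ ∃ A : Finset ℕ,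
      (∀ j ∈ A, j < J ∧ ∀ r < q, ¬ bad r j s) ∧ J ≤ 2 * A.card) ∧ (S : ℝ) / 2 ≤ (G.card : ℝ) := by
  classical
  have hJ0 : (0 : ℝ) < J := by exact_mod_cast hJ
  have hq0 : (0 : ℝ) < q := by exact_mod_cast hq
  refine ⟨(range S).filter (fun s =>
    2 * ((range J).filter (fun j => ∃ r < q, bad r j s)).card ≤ J), ?_, ?_⟩
  · intro s hs
    rw [mem_filter, mem_range] at hs
    refine ⟨hs.1, (range J).filter (fun j => ¬ ∃ r < q, bad r j s), ?_, ?_⟩
    · intro j hj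
      refine ⟨mem_range.1 (mem_filter.1 hj).1, fun r hr hb => (mem_filter.1 hj).2 ⟨r, hr, hb⟩⟩
    · have h1 := hs.2
      have h2 := card_filter_add_card_filter_not (s := range J) (fun j => ∃ r < q, bad r j s)
      rw [card_range] at h2
      omega
  · -- the pairs
    have hpairs : (((range J ×ˢ range S).filter (fun x => ∃ r < q, bad r x.1 x.2)).card : ℝ) ≤
        J * S / 4 := by
      have hsub : (range J ×ˢ range S).filter (fun x => ∃ r < q, bad r x.1 x.2) ⊆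
          (range q).biUnion (fun r => (range J ×ˢ range S).filter (fun x => bad r x.1 x.2)) := by
        intro x hx
        rw [mem_filter] at hx
        obtain ⟨hx1, r, hr, hb⟩ := hx
        rw [mem_biUnion]
        exact ⟨r, mem_range.2 hr, mem_filter.2 ⟨hx1, hb⟩⟩
      have hc := (card_le_card hsub).trans card_biUnion_le
      have hc' : (((range J ×ˢ range S).filter (fun x => ∃ r < q, bad r x.1 x.2)).card : ℝ) ≤
          ∑ r ∈ range q, (((range J ×ˢ range S).filter (fun x => bad r x.1 x.2)).card : ℝ) := by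
        exact_mod_cast hc
      refine hc'.trans ?_
      have hc2 : ∑ r ∈ range q, (((range J ×ˢ range S).filter
          (fun x => bad r x.1 x.2)).card : ℝ) ≤ ∑ _r ∈ range q, (J * S / (4 * q) : ℝ) := by
        apply sum_le_sum
        intro r hr
        apply h r (mem_range.1 hr)
        intro x hx
        rw [mem_filter, mem_product, mem_range, mem_range] at hx
        exact ⟨hx.1.1, hx.1.2, hx.2⟩
      refine hc2.trans ?_
      rw [sum_const, card_range, nsmul_eq_mul]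
      apply le_of_eq
      field_simp
    have h2 : ((range J ×ˢ range S).filter (fun x => ∃ r < q, bad r x.1 x.2)).card =
        ∑ s ∈ range S, ((range J).filter (fun j => ∃ r < q, bad r j s)).card := by
      rw [card_filter, sum_product_right]
      simp only [card_filter]
    have hE : (((range S).filter (fun s =>
        ¬ 2 * ((range J).filter (fun j => ∃ r < q, bad r j s)).card ≤ J)).card : ℝ) ≤ S / 2 := by
      have h3 : ∑ s ∈ (range S).filter (fun s =>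
          ¬ 2 * ((range J).filter (fun j => ∃ r < q, bad r j s)).card ≤ J),
          ((J : ℝ) / 2) ≤
          ∑ s ∈ range S, (((range J).filter (fun j => ∃ r < q, bad r j s)).card : ℝ) := by
        have h4 : ∑ s ∈ (range S).filter (fun s =>
            ¬ 2 * ((range J).filter (fun j => ∃ r < q, bad r j s)).card ≤ J),
            ((J : ℝ) / 2) ≤ ∑ s ∈ (range S).filter (fun s =>
            ¬ 2 * ((range J).filter (fun j => ∃ r < q, bad r j s)).card ≤ J),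
            (((range J).filter (fun j => ∃ r < q, bad r j s)).card : ℝ) := by
          apply sum_le_sum
          intro s hs
          have h5 := not_le.1 (mem_filter.1 hs).2
          have h6 : (J : ℝ) < 2 * (((range J).filter (fun j => ∃ r < q, bad r j s)).card : ℝ) := by
            exact_mod_cast h5
          linarith
        refine h4.trans (sum_le_sum_of_subset_of_nonneg (filter_subset _ _)
          (fun _ _ _ => Nat.cast_nonneg _))
      rw [sum_const, nsmul_eq_mul] at h3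
      have h7 : (∑ s ∈ range S, (((range J).filter (fun j => ∃ r < q, bad r j s)).card : ℝ)) ≤
          J * S / 4 := by
        rw [h2] at hpairs
        push_cast at hpairs
        exact hpairs
      have h8 := h3.trans h7
      nlinarith
    have hadd := card_filter_add_card_filter_not (s := range S)
      (fun s => 2 * ((range J).filter (fun j => ∃ r < q, bad r j s)).card ≤ J)
    rw [card_range] at hadd
    have hadd' : (((range S).filter (fun s =>
        2 * ((range J).filter (fun j => ∃ r < q, bad r j s)).card ≤ J)).card : ℝ) +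
        (((range S).filter (fun s =>
        ¬ 2 * ((range J).filter (fun j => ∃ r < q, bad r j s)).card ≤ J)).card : ℝ) = S := by
      exact_mod_cast hadd
    linarith

lemma choose_J (Q z L : ℕ) (hQ : 0 < Q) (hL : (Q * (8 * Q * z + 6)) ^ 4 ≤ L) :
    ∃ J : ℕ, 8 * Q * z ≤ J ∧ 0 < J ∧ (Q * (J + 1)) ^ 4 ≤ L ∧
      1 / (8 * (Q : ℝ)) * (L : ℝ) ^ (1 / 4 : ℝ) ≤ J / 2 := by
  have hQ0 : (0 : ℝ) < Q := by exact_mod_cast hQ
  set y : ℝ := (L : ℝ) ^ (1 / 4 : ℝ) with hy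
  have hy0 : 0 ≤ y := by positivity
  have hy4 : y ^ 4 = L := by
    rw [hy, ← Real.rpow_natCast, ← Real.rpow_mul (Nat.cast_nonneg _)]
    norm_num
  have hyL : (Q : ℝ) * (8 * Q * z + 6) ≤ y := by
    have h1 : ((Q : ℝ) * (8 * Q * z + 6)) ^ 4 ≤ y ^ 4 := by
      rw [hy4]
      exact_mod_cast hL
    exact le_of_pow_le_pow_left₀ (by norm_num) hy0 h1
  obtain ⟨K, hK⟩ : ∃ K, K = ⌊y / Q⌋₊ := ⟨_, rfl⟩
  have hyQ : 8 * (Q : ℝ) * z + 6 ≤ y / Q := by
    rw [le_div_iff₀ hQ0]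
    linarith
  have hK1 : y / Q < K + 1 := by rw [hK]; exact Nat.lt_floor_add_one _
  have hK2 : (K : ℝ) ≤ y / Q := by rw [hK]; exact Nat.floor_le (by positivity)
  have hK3 : 8 * Q * z + 5 ≤ K := by
    have : ((8 * Q * z + 6 : ℕ) : ℝ) < ((K + 1 : ℕ) : ℝ) := by
      push_cast
      linarith
    have := Nat.cast_lt.1 this
    omega
  obtain ⟨J, rfl⟩ : ∃ J, K = J + 1 := ⟨K - 1, by omega⟩
  refine ⟨J, by omega, by omega, ?_, ?_⟩
  · have h1 : ((Q * (J + 1) : ℕ) : ℝ) ≤ y := by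
      rw [le_div_iff₀ hQ0] at hK2
      push_cast at hK2 ⊢
      linarith
    have h2 : ((Q * (J + 1) : ℕ) : ℝ) ^ 4 ≤ y ^ 4 := pow_le_pow_left₀ (by positivity) h1 4
    rw [hy4] at h2
    exact_mod_cast h2
  · have e : 1 / (8 * (Q : ℝ)) * y = (y / Q) / 8 := by
      field_simp
    rw [e]
    push_cast at hK1
    have h3 : (5 : ℝ) ≤ J + 1 := by
      have : 5 ≤ J + 1 := by omega
      exact_mod_cast this
    linarith

/-- every pattern of at most `c L ^ (1/4)` classes occurs in the window `[x - L, x]` -/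
theorem many (q : ℕ) (hq : 0 < q) : ∃ c : ℝ, 0 < c ∧ ∃ L₀ : ℕ, ∀ L : ℕ, L₀ ≤ L → ∀ X : ℝ,
    (L : ℝ) ≤ c * X → c * X ^ (1 / 4 : ℝ) ≤
      ({x : ℕ | (x : ℝ) ≤ X ∧ ∀ k : ℕ, (k : ℝ) ≤ c * (L : ℝ) ^ (1 / 4 : ℝ) → ∀ s : Fin k → ℕ,
        (∀ i, Squarefree (s i)) → ∃ n : Fin k → ℕ, StrictMono n ∧ ∀ i, n i ≤ x ∧ x ≤ n i + L ∧
          Squarefree (n i) ∧ n i ≡ s i [MOD q] ∧ Cong (n i)}.ncard : ℝ) := by
  classical
  -- representatives
  have hrep : ∀ r : ℕ, ∃ a : ℕ, Squarefree a ∧ ∀ b, Squarefree b → b % q = r → b ≡ a [MOD q] := by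
    intro r
    by_cases h : ∃ b, Squarefree b ∧ b % q = r
    · obtain ⟨a, ha, har⟩ := h
      exact ⟨a, ha, fun b _ hb => by rw [Nat.ModEq, hb, har]⟩
    · exact ⟨1, squarefree_one, fun b hb hbr => absurd ⟨b, hb, hbr⟩ h⟩
  choose a ha har using hrep
  obtain ⟨u, hu⟩ : ∃ u, u = 8 * q ^ 2 := ⟨_, rfl⟩
  have hu0 : 0 < u := by rw [hu]; positivity
  obtain ⟨w, hw⟩ : ∃ w, w = 8 * u := ⟨_, rfl⟩
  have hw0 : 0 < w := by omega
  have hwq : w = (8 * q) ^ 2 := by rw [hw, hu]; ring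
  obtain ⟨z, hz⟩ : ∃ z, z = 32 * q := ⟨_, rfl⟩
  obtain ⟨P, hP⟩ : ∃ P, P = ∏ p ∈ (range (z + 1)).filter (fun p => p.Prime ∧ ¬ p ∣ w), p :=
    ⟨_, rfl⟩
  have hP0 : 0 < P := by
    rw [hP]
    exact Finset.prod_pos fun p hp => (mem_filter.1 hp).2.1.pos
  have hPdvd : ∀ p : ℕ, p.Prime → (p ∣ P ↔ p ≤ z ∧ ¬ p ∣ w) := by
    intro p hp
    constructor
    · intro h
      rw [hP, hp.prime.dvd_finsetProd_iff] at h
      obtain ⟨r, hr, hpr⟩ := h
      rw [mem_filter, mem_range] at hr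
      have := (Nat.prime_dvd_prime_iff_eq hp hr.2.1).1 hpr
      rw [this]
      exact ⟨by omega, hr.2.2⟩
    · rintro ⟨h1, h2⟩
      rw [hP]
      exact Finset.dvd_prod_of_mem _ (mem_filter.2 ⟨mem_range.2 (by omega), hp, h2⟩)
  have hcop : (w ^ 3).Coprime P := by
    apply Nat.Coprime.pow_left
    apply Nat.coprime_of_dvd
    intro p hp h1 h2
    exact ((hPdvd p hp).1 h2).2 h1
  obtain ⟨Q, hQ⟩ : ∃ Q, Q = w ^ 3 * P := ⟨_, rfl⟩
  have hQ0 : 0 < Q := by rw [hQ]; positivity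
  have hwQ : w ^ 3 ∣ Q := ⟨P, hQ⟩
  have hPQ : P ∣ Q := ⟨w ^ 3, by rw [hQ]; ring⟩
  -- the residues of m
  have hM : ∀ r : ℕ, ∃ M : ℕ, 0 < M ∧ M ≤ Q ∧
      M ≡ 1 + 16 * u ^ 2 * a r * (32 * u - 1) [MOD w ^ 3] ∧ M ≡ 1 [MOD P] := by
    intro r
    obtain ⟨M, hM⟩ : ∃ M, M = Nat.chineseRemainder hcop (1 + 16 * u ^ 2 * a r * (32 * u - 1)) 1 :=
      ⟨_, rfl⟩
    have hlt : (M : ℕ) < w ^ 3 * P := by
      rw [hM]
      exact Nat.chineseRemainder_lt_mul hcop _ _ (by positivity) hP0.ne'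
    refine ⟨M, ?_, by rw [hQ]; exact hlt.le, M.2.1, M.2.2⟩
    by_contra hneg
    have h0 : (M : ℕ) = 0 := by omega
    have h1 := M.2.1
    rw [h0] at h1
    have h2 : w ^ 3 ∣ 1 + 16 * u ^ 2 * a r * (32 * u - 1) := (Nat.modEq_zero_iff_dvd).1 h1.symm
    have h3 : 2 ∣ 1 + 16 * u ^ 2 * a r * (32 * u - 1) := by
      refine dvd_trans ?_ h2
      exact dvd_pow ⟨4 * u, by rw [hw]; ring⟩ (by norm_num)
    have h4 : 1 + 16 * u ^ 2 * a r * (32 * u - 1) =
        1 + 2 * (8 * u ^ 2 * a r * (32 * u - 1)) := by ring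
    rw [h4] at h3
    omega
  choose M hM0 hMQ hMw hMP using hM
  obtain ⟨T0, hT1, hT2⟩ := Nat.chineseRemainder hcop 1 0
  obtain ⟨C, hC⟩ : ∃ C, C = T0 + 2 * Q ^ 2 + Q := ⟨_, rfl⟩
  have hCQ : Q ≤ C := by omega
  have hC0 : 0 < C := by omega
  have hC0' : (0 : ℝ) < C := by exact_mod_cast hC0
  have hC1 : (1 : ℝ) ≤ C := by exact_mod_cast hC0
  have hQ0' : (0 : ℝ) < Q := by exact_mod_cast hQ0
  have hz0' : (0 : ℝ) < z := by exact_mod_cast (by omega : 0 < z)
  obtain ⟨N0, hN0⟩ := eventually_atTop.1 (pi_small (2 * C) (by omega) (1 / (4 * (z : ℝ)))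
    (by positivity))
  obtain ⟨c, hc⟩ : ∃ c : ℝ, c = 1 / (81 * (C : ℝ) ^ 4) := ⟨_, rfl⟩
  have hc0 : 0 < c := by rw [hc]; positivity
  have hC4 : (C : ℝ) ≤ (C : ℝ) ^ 4 := le_self_pow₀ hC1 (by norm_num)
  refine ⟨c, hc0, (Q * (8 * Q * z + 6)) ^ 4 + N0 ^ 4 + 1, fun L hL X hX => ?_⟩
  obtain ⟨J, hJ1, hJ0, hJL, hJc⟩ := choose_J Q z L hQ0 (by omega)
  have hcJ : c * (L : ℝ) ^ (1 / 4 : ℝ) ≤ J / 2 := by
    refine le_trans ?_ hJc
    apply mul_le_mul_of_nonneg_right _ (by positivity)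
    rw [hc]
    apply one_div_le_one_div_of_le
    · positivity
    · have : (Q : ℝ) ≤ C := by exact_mod_cast hCQ
      linarith
  -- the number of the parameters
  have hX0 : 0 ≤ X := by
    by_contra hneg
    have h1 : c * X < 0 := mul_neg_of_pos_of_neg hc0 (not_le.1 hneg)
    have h2 : (0 : ℝ) ≤ L := Nat.cast_nonneg _
    linarith
  obtain ⟨y, hy⟩ : ∃ y : ℝ, y = X ^ (1 / 4 : ℝ) := ⟨_, rfl⟩
  obtain ⟨l, hl⟩ : ∃ l : ℝ, l = (L : ℝ) ^ (1 / 4 : ℝ) := ⟨_, rfl⟩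
  have hy0 : 0 ≤ y := by rw [hy]; positivity
  have hl0 : 0 ≤ l := by rw [hl]; positivity
  have hy4 : y ^ 4 = X := by
    rw [hy, ← Real.rpow_natCast, ← Real.rpow_mul hX0]
    norm_num
  have hl4 : l ^ 4 = L := by
    rw [hl, ← Real.rpow_natCast, ← Real.rpow_mul (Nat.cast_nonneg _)]
    norm_num
  have hly : 3 * C * l ≤ y := by
    apply le_of_pow_le_pow_left₀ (by norm_num : 4 ≠ 0) hy0
    rw [hy4]
    have h1 : (3 * (C : ℝ) * l) ^ 4 = 81 * (C : ℝ) ^ 4 * L := by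
      rw [← hl4]
      ring
    rw [h1]
    rw [hc, one_div, inv_mul_eq_div, le_div_iff₀ (by positivity)] at hX
    linarith
  have hJl : ((Q * (J + 1) : ℕ) : ℝ) ≤ l := by
    apply le_of_pow_le_pow_left₀ (by norm_num : 4 ≠ 0) hl0
    rw [hl4]
    exact_mod_cast hJL
  have hNl : (N0 : ℝ) ≤ l := by
    apply le_of_pow_le_pow_left₀ (by norm_num : 4 ≠ 0) hl0
    rw [hl4]
    have : N0 ^ 4 ≤ L := by omega
    exact_mod_cast this
  have hl1 : (1 : ℝ) ≤ l := by
    apply le_of_pow_le_pow_left₀ (by norm_num : 4 ≠ 0) hl0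
    rw [hl4, one_pow]
    have : 1 ≤ L := by omega
    exact_mod_cast this
  obtain ⟨S, hS⟩ : ∃ S, S = ⌊y / C⌋₊ := ⟨_, rfl⟩
  have hS1 : y / C < S + 1 := by rw [hS]; exact Nat.lt_floor_add_one _
  have hS2 : (S : ℝ) ≤ y / C := by rw [hS]; exact Nat.floor_le (by positivity)
  have hyC : 3 * l ≤ y / C := by
    rw [le_div_iff₀ hC0']
    linarith
  have hSl : 2 * l ≤ S := by linarith
  have hSN : N0 ≤ S := by
    have : (N0 : ℝ) ≤ S := by linarith
    exact_mod_cast this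
  have hJS1 : 2 * (Q * (J + 1)) ≤ S := by
    have : ((2 * (Q * (J + 1)) : ℕ) : ℝ) ≤ S := by
      push_cast at hJl ⊢
      linarith
    exact_mod_cast this
  have hJS : J + 4 * Q * z + 1 ≤ S := by
    have h1 : J + 1 ≤ Q * (J + 1) := Nat.le_mul_of_pos_left _ hQ0
    have h2 : 8 * Q * z = 2 * (4 * Q * z) := by ring
    omega
  have hCS : (C : ℝ) * S ≤ y := by
    rw [le_div_iff₀ hC0'] at hS2
    linarith
  obtain ⟨B, hB⟩ : ∃ B, B = Q * (J + 1) := ⟨_, rfl⟩
  obtain ⟨T, hT⟩ : ∃ T, T = T0 + Q * (2 * B) := ⟨_, rfl⟩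
  have hTB : 2 * B ≤ T := by
    rw [hT]
    have : 2 * B ≤ Q * (2 * B) := Nat.le_mul_of_pos_left _ hQ0
    omega
  have hmB : ∀ r, ∀ j < J, M r + Q * j ≤ B := by
    intro r j hj
    have h1 : Q * j ≤ Q * J := Nat.mul_le_mul_left _ hj.le
    have h2 := hMQ r
    have e : Q * (J + 1) = Q * J + Q := by ring
    omega
  have htw : ∀ s : ℕ, ((8 * (u : ℤ)) ^ 3) ∣ ((T + Q * s : ℕ) : ℤ) - 1 := by
    intro s
    have h1 : T + Q * s ≡ 1 [MOD w ^ 3] := by
      have e : T + Q * s = T0 + w ^ 3 * (P * (2 * B) + P * s) := by rw [hT, hQ]; ring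
      rw [e]
      refine Nat.ModEq.trans ?_ hT1
      rw [Nat.modEq_iff_dvd]
      refine ⟨-((P * (2 * B) + P * s : ℕ) : ℤ), ?_⟩
      push_cast
      ring
    have h2 := (Nat.modEq_iff_dvd.1 h1.symm)
    rw [hw] at h2
    push_cast at h2 ⊢
    exact h2
  have htP : ∀ s : ℕ, P ∣ T + Q * s := by
    intro s
    have h1 : P ∣ T0 := (Nat.modEq_zero_iff_dvd).1 hT2
    rw [hT]
    exact dvd_add (dvd_add h1 (Dvd.dvd.mul_right hPQ _)) (Dvd.dvd.mul_right hPQ _)
  have hmw : ∀ r j, ((8 * (u : ℤ)) ^ 3) ∣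
      ((M r + Q * j : ℕ) : ℤ) - (1 + 16 * (u : ℤ) ^ 2 * a r * (32 * u - 1)) := by
    intro r j
    have h1 := Nat.modEq_iff_dvd.1 (hMw r).symm
    rw [hw] at h1
    push_cast [Nat.cast_sub (by omega : 1 ≤ 32 * u)] at h1
    have h2 : ((8 * (u : ℤ)) ^ 3) ∣ (Q : ℤ) := by
      have := Int.natCast_dvd_natCast.2 hwQ
      rw [hw] at this
      push_cast at this
      exact this
    have h3 := dvd_add h1 (Dvd.dvd.mul_right h2 (j : ℤ))
    have e : (M r : ℤ) - (1 + 16 * (u : ℤ) ^ 2 * a r * (32 * u - 1)) + Q * j =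
        ((M r + Q * j : ℕ) : ℤ) - (1 + 16 * (u : ℤ) ^ 2 * a r * (32 * u - 1)) := by
      push_cast
      ring
    rwa [e] at h3
  have hmt : ∀ r, ∀ j < J, ∀ s, 2 * (M r + Q * j) ≤ T + Q * s := by
    intro r j hj s
    have := hmB r j hj
    have h3 : 0 ≤ Q * s := Nat.zero_le _
    omega
  have hex : ∀ r j s, ∃ n : ℕ, j < J → (w ^ 2 * n + (M r + Q * j) ^ 4 = (T + Q * s) ^ 4 ∧
      (w : ℤ) ∣ (n : ℤ) - a r) := by
    intro r j s
    by_cases hj : j < J
    swap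
    · exact ⟨0, fun h => absurd h hj⟩
    obtain ⟨i, hi⟩ := base u (a r) ((T + Q * s : ℕ) : ℤ) ((M r + Q * j : ℕ) : ℤ) (htw s) (hmw r j)
    have hw' : (w : ℤ) = 8 * u := by rw [hw]; push_cast; ring
    rw [← hw'] at hi
    have hpos : 0 ≤ ((a r : ℤ) + w * i) := by
      have h1 : (0 : ℤ) ≤ ((T + Q * s : ℕ) : ℤ) ^ 4 - ((M r + Q * j : ℕ) : ℤ) ^ 4 := by
        have h2 : M r + Q * j ≤ T + Q * s := by have := hmt r j hj s; omega
        have h3 := Nat.pow_le_pow_left h2 4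
        have h4 : ((M r + Q * j : ℕ) : ℤ) ^ 4 ≤ ((T + Q * s : ℕ) : ℤ) ^ 4 := by exact_mod_cast h3
        linarith
      rw [hi] at h1
      by_contra hneg
      push Not at hneg
      have hw2 : (0 : ℤ) < (w : ℤ) ^ 2 := by positivity
      nlinarith
    obtain ⟨n, hn⟩ := Int.eq_ofNat_of_zero_le hpos
    refine ⟨n, fun _ => ⟨?_, ?_⟩⟩
    · rw [hn] at hi
      have : ((w : ℤ) ^ 2 * n + ((M r + Q * j : ℕ) : ℤ) ^ 4) = ((T + Q * s : ℕ) : ℤ) ^ 4 := by
        linarith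
      exact_mod_cast this
    · refine ⟨i, ?_⟩
      rw [← hn]
      ring
  choose n hn using hex
  have hn1 : ∀ r, ∀ j < J, ∀ s, w ^ 2 * n r j s + (M r + Q * j) ^ 4 = (T + Q * s) ^ 4 :=
    fun r j hj s => (hn r j s hj).1
  have hn2 : ∀ r, ∀ j < J, ∀ s, (w : ℤ) ∣ (n r j s : ℤ) - a r :=
    fun r j hj s => (hn r j s hj).2
  have hloc : ∀ r, ∀ j < J, ∀ s p, p.Prime → (p ≤ z ∨ p ∣ Q) → ¬ p ^ 2 ∣ n r j s := by
    intro r j hj s p hp hor hdiv
    by_cases hpw : p ∣ w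
    · have h1 : p ∣ 8 * q := by
        rw [hwq] at hpw
        exact hp.dvd_of_dvd_pow hpw
      have h2 : p ^ 2 ∣ w := by
        rw [hwq]
        exact pow_dvd_pow_of_dvd h1 2
      have h3 : ((p ^ 2 : ℕ) : ℤ) ∣ (n r j s : ℤ) - a r :=
        (Int.natCast_dvd_natCast.2 h2).trans (hn2 r j hj s)
      have h4 : ((p ^ 2 : ℕ) : ℤ) ∣ (a r : ℤ) := by
        have := dvd_sub (Int.natCast_dvd_natCast.2 hdiv) h3
        rwa [sub_sub_cancel] at this
      have h5 : p ^ 2 ∣ a r := Int.natCast_dvd_natCast.1 h4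
      rw [pow_two] at h5
      exact hp.not_isUnit (ha r p h5)
    · have hpz : p ≤ z := by
        rcases hor with h | h
        · exact h
        · rw [hQ] at h
          rcases (hp.dvd_mul).1 h with h1 | h1
          · exact absurd (hp.dvd_of_dvd_pow h1) hpw
          · exact ((hPdvd p hp).1 h1).1
      have hpP : p ∣ P := (hPdvd p hp).2 ⟨hpz, hpw⟩
      have h1 : p ∣ (T + Q * s) ^ 4 := dvd_pow (hpP.trans (htP s)) (by norm_num)
      rw [← hn1 r j hj s] at h1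
      have h2 : p ∣ w ^ 2 * n r j s :=
        Dvd.dvd.mul_left ((dvd_pow_self _ two_ne_zero).trans hdiv) _
      have h3 : p ∣ (M r + Q * j) ^ 4 := (Nat.dvd_add_right h2).1 h1
      have h4 : p ∣ M r + Q * j := hp.dvd_of_dvd_pow h3
      have h5 : p ∣ M r := (Nat.dvd_add_left ((hpP.trans hPQ).mul_right j)).1 h4
      have h6 : M r ≡ 1 [MOD p] := (hMP r).of_dvd hpP
      have h7 : 0 ≡ 1 [MOD p] := ((Nat.modEq_zero_iff_dvd.2 h5).symm).trans h6
      have h8 := (Nat.modEq_iff_dvd.1 h7)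
      have h9 : (p : ℤ) ∣ 1 := by simpa using h8
      have h10 : p ∣ 1 := by exact_mod_cast h9
      exact hp.one_lt.ne' (Nat.dvd_one.1 h10)
  have hz2 : 2 ≤ z := by omega
  have hTS : T + Q * S ≤ C * S := by
    have h1 : T0 ≤ T0 * S := Nat.le_mul_of_pos_right _ (by omega)
    have h2 : Q * (2 * B) ≤ 2 * Q ^ 2 * S := by
      rw [hB]
      have h3 : J + 1 ≤ S := by omega
      calc Q * (2 * (Q * (J + 1))) = 2 * Q ^ 2 * (J + 1) := by ring
        _ ≤ 2 * Q ^ 2 * S := Nat.mul_le_mul_left _ h3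
    rw [hT, hC]
    have e : (T0 + 2 * Q ^ 2 + Q) * S = T0 * S + 2 * Q ^ 2 * S + Q * S := by ring
    omega
  have hev : ∀ r < q, ∀ D : Finset (ℕ × ℕ), (∀ x ∈ D, x.1 < J ∧
      x.2 < S ∧ ∃ p, p.Prime ∧ p ^ 2 ∣ n r x.1 x.2) → (D.card : ℝ) ≤ 8 / z * J * S :=
    fun r _ D hD => pairs w T Q z B (M r) J (2 * C) S (n r) hz2 hQ0 (hM0 r) (hMQ r) hB.ge hTB
      (hn1 r) (hloc r) hJ1 (by rw [mul_assoc]; exact Nat.mul_le_mul_left _ hTS) (hN0 S hSN) hJS
      D hD
  have hw2Q : w ^ 2 ≤ Q := by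
    rw [hQ]
    calc w ^ 2 ≤ w ^ 3 := Nat.pow_le_pow_right hw0 (by norm_num)
      _ ≤ w ^ 3 * P := Nat.le_mul_of_pos_right _ hP0
  have hq0 : (0 : ℝ) < q := by exact_mod_cast hq
  obtain ⟨G, hG1, hG2⟩ := markov J S q hJ0 hq (fun r j s => ∃ p, p.Prime ∧ p ^ 2 ∣ n r j s)
    (by
      intro r hr D hD
      have h1 := hev r hr D hD
      have e : 8 / (z : ℝ) * J * S = J * S / (4 * q) := by
        rw [hz]
        push_cast
        field_simp
        ring
      rw [e] at h1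
      exact h1)
  have hfinX : {x : ℕ | (x : ℝ) ≤ X ∧ ∀ k : ℕ, (k : ℝ) ≤ c * (L : ℝ) ^ (1 / 4 : ℝ) →
      ∀ s : Fin k → ℕ, (∀ i, Squarefree (s i)) → ∃ n : Fin k → ℕ, StrictMono n ∧ ∀ i, n i ≤ x ∧
        x ≤ n i + L ∧ Squarefree (n i) ∧ n i ≡ s i [MOD q] ∧ Cong (n i)}.Finite := by
    apply (Set.finite_Iic ⌊X⌋₊).subset
    intro x hx
    exact Nat.le_floor hx.1
  have hsubX : ((G.image (fun s => (T + Q * s) ^ 4 / w ^ 2) : Finset ℕ) : Set ℕ) ⊆
      {x : ℕ | (x : ℝ) ≤ X ∧ ∀ k : ℕ, (k : ℝ) ≤ c * (L : ℝ) ^ (1 / 4 : ℝ) →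
      ∀ s : Fin k → ℕ, (∀ i, Squarefree (s i)) → ∃ n : Fin k → ℕ, StrictMono n ∧ ∀ i, n i ≤ x ∧
        x ≤ n i + L ∧ Squarefree (n i) ∧ n i ≡ s i [MOD q] ∧ Cong (n i)} := by
    intro x hx
    rw [Finset.mem_coe, Finset.mem_image] at hx
    obtain ⟨s, hs, rfl⟩ := hx
    refine ⟨?_, fun k hk b hb => ?_⟩
    · have h1 : (T + Q * s) ^ 4 / w ^ 2 ≤ (C * S) ^ 4 := by
        refine (Nat.div_le_self _ _).trans (Nat.pow_le_pow_left ?_ 4)
        have h2 : Q * s ≤ Q * S := Nat.mul_le_mul_left _ (hG1 s hs).1.le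
        omega
      have h2 : (((T + Q * s) ^ 4 / w ^ 2 : ℕ) : ℝ) ≤ ((C : ℝ) * S) ^ 4 := by exact_mod_cast h1
      refine h2.trans ?_
      rw [← hy4]
      exact pow_le_pow_left₀ (by positivity) hCS 4
    · obtain ⟨A, hA1, hA2⟩ := (hG1 s hs).2
      have hkA : k ≤ A.card := by
        have h8 : (J : ℝ) ≤ 2 * (A.card : ℝ) := by exact_mod_cast hA2
        have h9 : (k : ℝ) ≤ (A.card : ℝ) := by linarith
        exact_mod_cast h9
      obtain ⟨e, he1, he2⟩ : ∃ e : Fin k → ℕ, (∀ i j, i < j → e j < e i) ∧ ∀ i, e i ∈ A := by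
        refine ⟨fun i => A.orderEmbOfFin rfl (Fin.castLE hkA i.rev), ?_, ?_⟩
        · intro i j hij
          apply (A.orderEmbOfFin rfl).strictMono
          exact Fin.rev_lt_rev.2 hij
        · intro i
          exact A.orderEmbOfFin_mem rfl _
      have heJ : ∀ i, e i < J := fun i => (hA1 _ (he2 i)).1
      refine ⟨fun i => n (b i % q) (e i) s, ?_, fun i => ⟨?_, ?_, ?_, ?_, ?_⟩⟩
      · intro i j hij
        have h1 := hn1 (b i % q) (e i) (heJ i) s
        have h2 := hn1 (b j % q) (e j) (heJ j) s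
        have h3 : M (b j % q) + Q * e j < M (b i % q) + Q * e i := by
          have h4 : Q * (e j + 1) ≤ Q * e i := Nat.mul_le_mul_left _ (he1 i j hij)
          have h5 := hMQ (b j % q)
          have h6 := hM0 (b i % q)
          have e : Q * (e j + 1) = Q * e j + Q := by ring
          omega
        have h4 : (M (b j % q) + Q * e j) ^ 4 < (M (b i % q) + Q * e i) ^ 4 :=
          Nat.pow_lt_pow_left h3 (by norm_num)
        have h5 : w ^ 2 * n (b i % q) (e i) s < w ^ 2 * n (b j % q) (e j) s := by omega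
        exact lt_of_mul_lt_mul_left h5 (Nat.zero_le _)
      · show n (b i % q) (e i) s ≤ (T + Q * s) ^ 4 / w ^ 2
        rw [Nat.le_div_iff_mul_le (by positivity), ← hn1 (b i % q) (e i) (heJ i) s, mul_comm]
        exact Nat.le_add_right _ _
      · have h1 : (T + Q * s) ^ 4 / w ^ 2 =
            n (b i % q) (e i) s + (M (b i % q) + Q * e i) ^ 4 / w ^ 2 := by
          rw [← hn1 (b i % q) (e i) (heJ i) s, Nat.mul_add_div (by positivity)]
        rw [h1]
        have h2 : (M (b i % q) + Q * e i) ^ 4 / w ^ 2 ≤ (M (b i % q) + Q * e i) ^ 4 :=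
          Nat.div_le_self _ _
        have h3 : (M (b i % q) + Q * e i) ^ 4 ≤ (Q * (J + 1)) ^ 4 :=
          Nat.pow_le_pow_left (hB ▸ hmB (b i % q) (e i) (heJ i)) 4
        exact Nat.add_le_add_left (h2.trans (h3.trans hJL)) _
      · exact sqfree_of (fun p hp hd => (hA1 _ (he2 i)).2 (b i % q) (Nat.mod_lt _ hq) ⟨p, hp, hd⟩)
      · have h1 : (q : ℤ) ∣ (n (b i % q) (e i) s : ℤ) - a (b i % q) := by
          refine dvd_trans ?_ (hn2 (b i % q) (e i) (heJ i) s)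
          rw [hwq]
          push_cast
          exact ⟨64 * q, by ring⟩
        have h2 : n (b i % q) (e i) s ≡ a (b i % q) [MOD q] := (Nat.modEq_iff_dvd.2 h1).symm
        exact h2.trans (har (b i % q) (b i) (hb i) rfl).symm
      · exact cong_fourth (by have := hM0 (b i % q); omega) hw0 (hmt (b i % q) (e i) (heJ i) s)
          (hn1 (b i % q) (e i) (heJ i) s)
  have h6 := Set.ncard_le_ncard hsubX hfinX
  rw [Set.ncard_coe_finset, Finset.card_image_of_injective _ (window_inj hw0 hw2Q)] at h6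
  refine le_trans ?_ (Nat.cast_le.2 h6)
  refine le_trans ?_ hG2
  rw [← hy]
  have h7 : c * y ≤ y / C / 4 := by
    rw [hc, one_div, inv_mul_eq_div, div_div]
    apply div_le_div_of_nonneg_left hy0 (by positivity)
    linarith
  linarith

end Pool.Agent.V7H17.CC
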