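import Pool.Agent.V7H17.CC.Quartic

/-!
# Squarefree values of `(t ^ 4 - m ^ 4) / w ^ 2` on average over `m` in a progression
-/

set_option autoImplicit false

namespace Pool.Agent.V7H17.CC

open Finset Filter Topology

lemma split_sq {w T Q m s n p : ℕ} (hp : p.Prime) (hp2 : 2 < p) (hpm : ¬ p ∣ m)
    (hn : w ^ 2 * n + m ^ 4 = (T + Q * s) ^ 4) (h : p ^ 2 ∣ n) :
    (p : ℤ) ^ 2 ∣ ((T : ℤ) + Q * s) ^ 2 - (m : ℤ) ^ 2 ∨
      (p : ℤ) ^ 2 ∣ ((T : ℤ) + Q * s) ^ 2 - -(m : ℤ) ^ 2 := by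
  have hpp : Prime (p : ℤ) := Nat.prime_iff_prime_int.1 hp
  have h1 : (p : ℤ) ^ 2 ∣ (((T : ℤ) + Q * s) ^ 2 - (m : ℤ) ^ 2) *
      (((T : ℤ) + Q * s) ^ 2 - -(m : ℤ) ^ 2) := by
    have h1 : (p : ℤ) ^ 2 ∣ (n : ℤ) := by exact_mod_cast h
    have h2 : (w : ℤ) ^ 2 * n + (m : ℤ) ^ 4 = ((T : ℤ) + Q * s) ^ 4 := by exact_mod_cast hn
    have e : (((T : ℤ) + Q * s) ^ 2 - (m : ℤ) ^ 2) *
        (((T : ℤ) + Q * s) ^ 2 - -(m : ℤ) ^ 2) = (w : ℤ) ^ 2 * n := by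
      linear_combination -h2
    rw [e]
    exact Dvd.dvd.mul_left h1 _
  by_cases h2 : (p : ℤ) ∣ ((T : ℤ) + Q * s) ^ 2 - (m : ℤ) ^ 2
  · left
    refine hpp.pow_dvd_of_dvd_mul_right 2 ?_ h1
    intro h3
    have h4 := dvd_sub h3 h2
    have e : ((T : ℤ) + Q * s) ^ 2 - -(m : ℤ) ^ 2 - (((T : ℤ) + Q * s) ^ 2 - (m : ℤ) ^ 2) =
      2 * (m : ℤ) ^ 2 := by ring
    rw [e] at h4
    rcases hpp.dvd_or_dvd h4 with h5 | h5
    · have h6 : p ∣ 2 := by exact_mod_cast h5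
      have := Nat.le_of_dvd (by norm_num) h6
      omega
    · have h6 := hpp.dvd_of_dvd_pow h5
      exact hpm (Int.natCast_dvd_natCast.1 h6)
  · right
    exact hpp.pow_dvd_of_dvd_mul_left 2 h2 h1

lemma generic_card {w T Q m S p : ℕ} {n : ℕ → ℕ} (hp : p.Prime) (hp2 : 2 < p) (hpm : ¬ p ∣ m)
    (hpQ : ¬ p ∣ Q) (hn : ∀ s, w ^ 2 * n s + m ^ 4 = (T + Q * s) ^ 4) (A : Finset ℕ)
    (hA : ∀ s ∈ A, s < S ∧ p ^ 2 ∣ n s) : (A.card : ℝ) ≤ 4 * ((S : ℝ) / p ^ 2 + 1) := by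
  have hpp : Prime (p : ℤ) := Nat.prime_iff_prime_int.1 hp
  have hc : ¬ (p : ℤ) ∣ (m : ℤ) ^ 2 := fun h =>
    hpm (Int.natCast_dvd_natCast.1 (hpp.dvd_of_dvd_pow h))
  have hA1 := card_quad (S := S) (T := T) (c := (m : ℤ) ^ 2) hp hp2 hpQ hc
    (A.filter (fun s : ℕ => (p : ℤ) ^ 2 ∣ ((T : ℤ) + Q * s) ^ 2 - (m : ℤ) ^ 2))
    (fun s hs => ⟨(hA s (mem_filter.1 hs).1).1, (mem_filter.1 hs).2⟩)
  have hA2 := card_quad (S := S) (T := T) (c := -(m : ℤ) ^ 2) hp hp2 hpQ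
    (by rw [dvd_neg]; exact hc)
    (A.filter (fun s : ℕ => (p : ℤ) ^ 2 ∣ ((T : ℤ) + Q * s) ^ 2 - -(m : ℤ) ^ 2))
    (fun s hs => ⟨(hA s (mem_filter.1 hs).1).1, (mem_filter.1 hs).2⟩)
  have hsub : A ⊆
      (A.filter (fun s : ℕ => (p : ℤ) ^ 2 ∣ ((T : ℤ) + Q * s) ^ 2 - (m : ℤ) ^ 2)) ∪
      (A.filter (fun s : ℕ => (p : ℤ) ^ 2 ∣ ((T : ℤ) + Q * s) ^ 2 - -(m : ℤ) ^ 2)) := by
    intro s hs
    rw [mem_union, mem_filter, mem_filter]
    rcases split_sq hp hp2 hpm (hn s) (hA s hs).2 with h | h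
    · exact Or.inl ⟨hs, h⟩
    · exact Or.inr ⟨hs, h⟩
  have hcard := (card_le_card hsub).trans (card_union_le _ _)
  have hcard' : (A.card : ℝ) ≤
      ((A.filter (fun s : ℕ => (p : ℤ) ^ 2 ∣ ((T : ℤ) + Q * s) ^ 2 - (m : ℤ) ^ 2)).card : ℝ) +
      ((A.filter (fun s : ℕ => (p : ℤ) ^ 2 ∣ ((T : ℤ) + Q * s) ^ 2 - -(m : ℤ) ^ 2)).card : ℝ) := by
    exact_mod_cast hcard
  linarith

lemma prime_range {w T Q m s n p : ℕ} (hp : p.Prime) (hp2 : 2 < p) (hm : 0 < m)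
    (hmt : 2 * m ≤ T + Q * s)
    (hn : w ^ 2 * n + m ^ 4 = (T + Q * s) ^ 4) (h : p ^ 2 ∣ n) : p ≤ 2 * (T + Q * s) := by
  by_cases hpm : p ∣ m
  · have := Nat.le_of_dvd hm hpm
    omega
  have h1 : (p : ℤ) ^ 2 ≤ ((T : ℤ) + Q * s) ^ 2 + (m : ℤ) ^ 2 := by
    have hmt : 2 * (m : ℤ) ≤ (T : ℤ) + Q * s := by exact_mod_cast hmt
    have hmi : (0 : ℤ) < m := by exact_mod_cast hm
    rcases split_sq hp hp2 hpm hn h with h2 | h2
    · have h3 := Int.le_of_dvd (by nlinarith) h2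
      nlinarith
    · have h3 := Int.le_of_dvd (by nlinarith) h2
      nlinarith
  have h2 : p ^ 2 ≤ (T + Q * s) ^ 2 + m ^ 2 := by exact_mod_cast h1
  by_contra hlt
  push Not at hlt
  nlinarith

/-- counting pairs -/
lemma pair_count (J S : ℕ) (P₁ P₂ : Finset ℕ) (bad : ℕ → ℕ → Prop) (b₁ : ℕ → ℕ → ℕ → Prop)
    (b₂ b₃ : ℕ → ℕ → Prop) (B₁ B₂ B₃ : ℕ → ℝ)
    (h : ∀ j < J, ∀ s < S, bad j s → (∃ p ∈ P₁, b₁ p j s) ∨ ∃ p ∈ P₂, b₂ p j ∧ b₃ p s)
    (h₁ : ∀ p ∈ P₁, ∀ j < J, ∀ A : Finset ℕ, (∀ s ∈ A, s < S ∧ b₁ p j s) → (A.card : ℝ) ≤ B₁ p)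
    (h₂ : ∀ p ∈ P₂, ∀ A : Finset ℕ, (∀ j ∈ A, j < J ∧ b₂ p j) → (A.card : ℝ) ≤ B₂ p)
    (h₃ : ∀ p ∈ P₂, ∀ A : Finset ℕ, (∀ s ∈ A, s < S ∧ b₃ p s) → (A.card : ℝ) ≤ B₃ p)
    (D : Finset (ℕ × ℕ)) (hD : ∀ x ∈ D, x.1 < J ∧ x.2 < S ∧ bad x.1 x.2) :
    (D.card : ℝ) ≤ J * ∑ p ∈ P₁, B₁ p + ∑ p ∈ P₂, B₂ p * B₃ p := by
  classical
  have hsub : D ⊆ ((range J).biUnion (fun j => P₁.biUnion (fun p =>
      ((range S).filter (fun s => b₁ p j s)).image (fun s => (j, s))))) ∪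
      (P₂.biUnion (fun p => ((range J).filter (fun j => b₂ p j)) ×ˢ
        ((range S).filter (fun s => b₃ p s)))) := by
    rintro ⟨j, s⟩ hx
    obtain ⟨h1, h2, h3⟩ := hD _ hx
    rw [mem_union]
    rcases h j h1 s h2 h3 with ⟨p, hp, hb⟩ | ⟨p, hp, hb⟩
    · left
      rw [mem_biUnion]
      refine ⟨j, mem_range.2 h1, ?_⟩
      rw [mem_biUnion]
      refine ⟨p, hp, ?_⟩
      rw [mem_image]
      exact ⟨s, mem_filter.2 ⟨mem_range.2 h2, hb⟩, rfl⟩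
    · right
      rw [mem_biUnion]
      refine ⟨p, hp, ?_⟩
      rw [mem_product]
      exact ⟨mem_filter.2 ⟨mem_range.2 h1, hb.1⟩, mem_filter.2 ⟨mem_range.2 h2, hb.2⟩⟩
  have hc := (card_le_card hsub).trans (card_union_le _ _)
  have hc1 : ((((range J).biUnion (fun j => P₁.biUnion (fun p =>
      ((range S).filter (fun s => b₁ p j s)).image (fun s => (j, s))))).card : ℕ) : ℝ) ≤
      J * ∑ p ∈ P₁, B₁ p := by
    have ha := (card_biUnion_le (s := range J) (t := fun j => P₁.biUnion (fun p =>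
      ((range S).filter (fun s => b₁ p j s)).image (fun s => (j, s)))))
    have hb : ((∑ j ∈ range J, (P₁.biUnion (fun p =>
      ((range S).filter (fun s => b₁ p j s)).image (fun s => (j, s)))).card : ℕ) : ℝ) ≤
        ∑ _j ∈ range J, ∑ p ∈ P₁, B₁ p := by
      push_cast
      apply sum_le_sum
      intro j hj
      have h5 : (P₁.biUnion (fun p =>
        ((range S).filter (fun s => b₁ p j s)).image (fun s => (j, s)))).card ≤
        ∑ p ∈ P₁, ((range S).filter (fun s => b₁ p j s)).card :=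
        card_biUnion_le.trans (sum_le_sum fun p _ => card_image_le)
      have h6 : ((∑ p ∈ P₁, ((range S).filter (fun s => b₁ p j s)).card : ℕ) : ℝ) ≤
          ∑ p ∈ P₁, B₁ p := by
        push_cast
        apply sum_le_sum
        intro p hp
        exact h₁ p hp j (mem_range.1 hj) _ (fun s hs =>
          ⟨mem_range.1 (mem_filter.1 hs).1, (mem_filter.1 hs).2⟩)
      exact le_trans (by exact_mod_cast h5) h6
    rw [sum_const, card_range, nsmul_eq_mul] at hb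
    exact le_trans (by exact_mod_cast ha) hb
  have hc2 : (((P₂.biUnion (fun p => ((range J).filter (fun j => b₂ p j)) ×ˢ
        ((range S).filter (fun s => b₃ p s)))).card : ℕ) : ℝ) ≤ ∑ p ∈ P₂, B₂ p * B₃ p := by
    have ha := (card_biUnion_le (s := P₂) (t := fun p => ((range J).filter (fun j => b₂ p j)) ×ˢ
        ((range S).filter (fun s => b₃ p s))))
    have hb : ((∑ p ∈ P₂, (((range J).filter (fun j => b₂ p j)) ×ˢ
        ((range S).filter (fun s => b₃ p s))).card : ℕ) : ℝ) ≤ ∑ p ∈ P₂, B₂ p * B₃ p := by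
      push_cast
      apply sum_le_sum
      intro p hp
      rw [card_product]
      push_cast
      have h5 := h₂ p hp ((range J).filter (fun j => b₂ p j)) (fun s hs =>
          ⟨mem_range.1 (mem_filter.1 hs).1, (mem_filter.1 hs).2⟩)
      have h6 := h₃ p hp ((range S).filter (fun s => b₃ p s)) (fun s hs =>
          ⟨mem_range.1 (mem_filter.1 hs).1, (mem_filter.1 hs).2⟩)
      exact mul_le_mul h5 h6 (Nat.cast_nonneg _) (le_trans (Nat.cast_nonneg _) h5)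
    exact le_trans (by exact_mod_cast ha) hb
  have hc' : (D.card : ℝ) ≤ ((((range J).biUnion (fun j => P₁.biUnion (fun p =>
      ((range S).filter (fun s => b₁ p j s)).image (fun s => (j, s))))).card : ℕ) : ℝ) +
      (((P₂.biUnion (fun p => ((range J).filter (fun j => b₂ p j)) ×ˢ
        ((range S).filter (fun s => b₃ p s)))).card : ℕ) : ℝ) := by exact_mod_cast hc
  linarith

lemma sum_inv_sq_le (z R : ℕ) (hz : 1 ≤ z) (A : Finset ℕ) (hA : ∀ p ∈ A, z < p ∧ p ≤ R) :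
    ∑ p ∈ A, ((p : ℝ) ^ 2)⁻¹ ≤ 1 / z := by
  have ha : ∑ p ∈ A, ((p : ℝ) ^ 2)⁻¹ ≤ ∑ p ∈ Ioc z (max z R), ((p : ℝ) ^ 2)⁻¹ := by
    apply sum_le_sum_of_subset_of_nonneg
    · intro p hp
      rw [mem_Ioc]
      exact ⟨(hA p hp).1, le_max_of_le_right (hA p hp).2⟩
    · intro _ _ _
      positivity
  have hb : ∑ i ∈ Ioc z (max z R), (((i : ℝ)) ^ 2)⁻¹ ≤
      (z : ℝ)⁻¹ - ((max z R : ℕ) : ℝ)⁻¹ :=
    sum_Ioc_inv_sq_le_sub (by omega) (le_max_left _ _)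
  have hc : (0 : ℝ) ≤ ((max z R : ℕ) : ℝ)⁻¹ := by positivity
  rw [one_div]
  linarith

lemma sum_inv_le (z Q J : ℕ) (hz : 1 ≤ z) (hQ : 1 ≤ Q) (hJ : 8 * Q * z ≤ J) (A : Finset ℕ)
    (hA : ∀ p ∈ A, z < p ∧ p ≤ Q * (J + 1)) :
    ∑ p ∈ A, ((p : ℝ))⁻¹ ≤ J / (2 * z) := by
  have hz0 : (0 : ℝ) < z := by exact_mod_cast hz
  have hQ0 : (0 : ℝ) < Q := by exact_mod_cast hQ
  have h1 : ∀ p ∈ A, ((p : ℝ))⁻¹ ≤ 1 / (8 * Q * z) + 2 * Q * z * ((p : ℝ) ^ 2)⁻¹ := by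
    intro p hp
    have hp0 : (0 : ℝ) < p := by exact_mod_cast (by have := (hA p hp).1; omega : 0 < p)
    have h2 : 0 ≤ (1 / (4 * Q * z) - (p : ℝ)⁻¹) ^ 2 := sq_nonneg _
    have e : ((p : ℝ) ^ 2)⁻¹ = (p : ℝ)⁻¹ ^ 2 := by rw [inv_pow]
    rw [e]
    have e2 : 1 / (8 * Q * z) + 2 * Q * z * (p : ℝ)⁻¹ ^ 2 - (p : ℝ)⁻¹ =
        2 * Q * z * (1 / (4 * Q * z) - (p : ℝ)⁻¹) ^ 2 := by
      field_simp
      ring
    have h3 : 0 ≤ 2 * (Q : ℝ) * z * (1 / (4 * Q * z) - (p : ℝ)⁻¹) ^ 2 := by positivity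
    linarith
  refine (sum_le_sum h1).trans ?_
  rw [sum_add_distrib, ← mul_sum, sum_const, nsmul_eq_mul]
  have h2 := sum_inv_sq_le z (Q * (J + 1)) hz A hA
  have h3 : (A.card : ℝ) ≤ Q * (J + 1) := by
    have : A ⊆ Ioc 0 (Q * (J + 1)) := by
      intro p hp
      rw [mem_Ioc]
      have := hA p hp
      omega
    have := card_le_card this
    rw [Nat.card_Ioc, Nat.sub_zero] at this
    exact_mod_cast this
  have hJ' : 8 * (Q : ℝ) * z ≤ J := by exact_mod_cast hJ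
  have h4 : (A.card : ℝ) * (1 / (8 * Q * z)) ≤ (Q * (J + 1)) * (1 / (8 * Q * z)) := by gcongr
  have h5 : 2 * (Q : ℝ) * z * ∑ p ∈ A, ((p : ℝ) ^ 2)⁻¹ ≤ 2 * Q * z * (1 / z) := by gcongr
  have h6 : (Q : ℝ) * (J + 1) * (1 / (8 * Q * z)) + 2 * Q * z * (1 / z) ≤ J / (2 * z) := by
    have e : (Q : ℝ) * (J + 1) * (1 / (8 * Q * z)) + 2 * Q * z * (1 / z) =
        ((J + 1) + 16 * Q * z) / (8 * z) := by
      field_simp
      ring
    rw [e, div_le_div_iff₀ (by positivity) (by positivity)]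
    have hQz : (1 : ℝ) ≤ Q * z := by
      have : 1 ≤ Q * z := Nat.mul_pos hQ hz
      exact_mod_cast this
    nlinarith
  linarith

theorem pairs (w T Q z B M J C S : ℕ) (n : ℕ → ℕ → ℕ) (hz : 2 ≤ z) (hQ : 1 ≤ Q) (hM : 0 < M)
    (hMQ : M ≤ Q) (hB : Q * (J + 1) ≤ B) (hT : 2 * B ≤ T)
    (hn : ∀ j < J, ∀ s, w ^ 2 * n j s + (M + Q * j) ^ 4 = (T + Q * s) ^ 4)
    (hloc : ∀ j < J, ∀ s p, p.Prime → (p ≤ z ∨ p ∣ Q) → ¬ p ^ 2 ∣ n j s)
    (hJ : 8 * Q * z ≤ J) (hC : 2 * (T + Q * S) ≤ C * S)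
    (h5 : (Nat.primeCounting (C * S) : ℝ) ≤ 1 / (4 * z) * S) (h6 : J + 4 * Q * z + 1 ≤ S)
    (D : Finset (ℕ × ℕ)) (hD : ∀ x ∈ D, x.1 < J ∧ x.2 < S ∧
      ∃ p, p.Prime ∧ p ^ 2 ∣ n x.1 x.2) : (D.card : ℝ) ≤ 8 / z * J * S := by
  classical
  have hz0 : (0 : ℝ) < z := by exact_mod_cast (by omega : 0 < z)
  have hmB : ∀ j < J, M + Q * j ≤ B := by
    intro j hj
    have : Q * j ≤ Q * J := Nat.mul_le_mul_left _ hj.le
    have e : Q * (J + 1) = Q * J + Q := by ring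
    omega
  have hD2 := pair_count J S
    ((Ioc z (C * S)).filter (fun p => p.Prime))
    ((Ioc z (Q * (J + 1))).filter (fun p => p.Prime ∧ ¬ p ∣ Q))
    (fun j s => ∃ p, p.Prime ∧ p ^ 2 ∣ n j s)
    (fun p j s => ¬ p ∣ Q ∧ ¬ p ∣ M + Q * j ∧ p ^ 2 ∣ n j s)
    (fun p j => p ∣ M + Q * j) (fun p s => p ∣ T + Q * s)
    (fun p => 4 * ((S : ℝ) / p ^ 2 + 1)) (fun p => (J : ℝ) / p + 1) (fun p => (S : ℝ) / p + 1)
    ?_ ?_ ?_ ?_ D hD
  · refine hD2.trans ?_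
    -- first sum
    have hS1 : ∑ p ∈ (Ioc z (C * S)).filter (fun p => p.Prime),
        (4 * ((S : ℝ) / (p : ℝ) ^ 2 + 1)) ≤ 4 * (S : ℝ) / z + (S : ℝ) / z := by
      have e : ∑ p ∈ (Ioc z (C * S)).filter (fun p => p.Prime),
        (4 * ((S : ℝ) / (p : ℝ) ^ 2 + 1)) = 4 * (S : ℝ) *
          (∑ p ∈ (Ioc z (C * S)).filter (fun p => p.Prime), ((p : ℝ) ^ 2)⁻¹) +
          4 * (((Ioc z (C * S)).filter (fun p => p.Prime)).card : ℝ) := by
        calc ∑ p ∈ (Ioc z (C * S)).filter (fun p => p.Prime),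
            (4 * ((S : ℝ) / p ^ 2 + 1)) =
            ∑ p ∈ (Ioc z (C * S)).filter (fun p => p.Prime),
              (4 * (S : ℝ) * ((p : ℝ) ^ 2)⁻¹ + 4) := by
              apply sum_congr rfl
              intro p _
              rw [div_eq_mul_inv]
              ring
          _ = _ := by
              rw [sum_add_distrib, ← mul_sum, sum_const, nsmul_eq_mul]
              ring
      rw [e]
      have h7 := sum_inv_sq_le z (C * S) (by omega)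
        ((Ioc z (C * S)).filter (fun p => p.Prime))
        (fun p hp => mem_Ioc.1 (mem_filter.1 hp).1)
      have h8 : (((Ioc z (C * S)).filter (fun p => p.Prime)).card : ℝ) ≤
          1 / (4 * z) * S := by
        refine le_trans ?_ h5
        have : ((Ioc z (C * S)).filter (fun p => p.Prime)).card ≤
            Nat.primeCounting (C * S) := by
          rw [← Nat.primesLE_card_eq_primeCounting]
          apply card_le_card
          intro p hp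
          rw [mem_filter, mem_Ioc] at hp
          rw [Nat.mem_primesLE]
          exact ⟨hp.1.2, hp.2⟩
        exact_mod_cast this
      have h9 : 4 * (S : ℝ) * (∑ p ∈ (Ioc z (C * S)).filter (fun p => p.Prime),
          ((p : ℝ) ^ 2)⁻¹) ≤ 4 * S * (1 / z) := by gcongr
      have e2 : 4 * (1 / (4 * (z : ℝ)) * S) = S / z := by
        field_simp
      have e3 : 4 * (S : ℝ) * (1 / z) = 4 * S / z := by ring
      linarith
    -- second sum
    have hS2 : ∑ p ∈ (Ioc z (Q * (J + 1))).filter (fun p => p.Prime ∧ ¬ p ∣ Q),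
        ((J : ℝ) / (p : ℝ) + 1) * ((S : ℝ) / (p : ℝ) + 1) ≤
        (J : ℝ) * S / z + ((J : ℝ) + S) * ((J : ℝ) / (2 * z)) + (Q : ℝ) * ((J : ℝ) + 1) := by
      have e : ∑ p ∈ (Ioc z (Q * (J + 1))).filter (fun p => p.Prime ∧ ¬ p ∣ Q),
        ((J : ℝ) / p + 1) * ((S : ℝ) / p + 1) =
          J * S * (∑ p ∈ (Ioc z (Q * (J + 1))).filter (fun p => p.Prime ∧ ¬ p ∣ Q),
            ((p : ℝ) ^ 2)⁻¹) +
          (J + S) * (∑ p ∈ (Ioc z (Q * (J + 1))).filter (fun p => p.Prime ∧ ¬ p ∣ Q),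
            ((p : ℝ))⁻¹) +
          (((Ioc z (Q * (J + 1))).filter (fun p => p.Prime ∧ ¬ p ∣ Q)).card : ℝ) := by
        calc ∑ p ∈ (Ioc z (Q * (J + 1))).filter (fun p => p.Prime ∧ ¬ p ∣ Q),
            ((J : ℝ) / p + 1) * ((S : ℝ) / p + 1) =
            ∑ p ∈ (Ioc z (Q * (J + 1))).filter (fun p => p.Prime ∧ ¬ p ∣ Q),
              ((J : ℝ) * S * ((p : ℝ) ^ 2)⁻¹ + (J + S) * ((p : ℝ))⁻¹ + 1) := by
              apply sum_congr rfl
              intro p _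
              rw [div_eq_mul_inv, div_eq_mul_inv, ← inv_pow]
              ring
          _ = _ := by
              rw [sum_add_distrib, sum_add_distrib, ← mul_sum, ← mul_sum, sum_const,
                nsmul_eq_mul, mul_one]
      rw [e]
      have h7 := sum_inv_sq_le z (Q * (J + 1)) (by omega)
        ((Ioc z (Q * (J + 1))).filter (fun p => p.Prime ∧ ¬ p ∣ Q))
        (fun p hp => mem_Ioc.1 (mem_filter.1 hp).1)
      have h8 := sum_inv_le z Q J (by omega) hQ hJ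
        ((Ioc z (Q * (J + 1))).filter (fun p => p.Prime ∧ ¬ p ∣ Q))
        (fun p hp => mem_Ioc.1 (mem_filter.1 hp).1)
      have h9 : (((Ioc z (Q * (J + 1))).filter (fun p => p.Prime ∧ ¬ p ∣ Q)).card : ℝ) ≤
          Q * (J + 1) := by
        have : ((Ioc z (Q * (J + 1))).filter (fun p => p.Prime ∧ ¬ p ∣ Q)) ⊆
            Ioc 0 (Q * (J + 1)) := by
          intro p hp
          have := mem_Ioc.1 (mem_filter.1 hp).1
          rw [mem_Ioc]
          omega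
        have := card_le_card this
        rw [Nat.card_Ioc, Nat.sub_zero] at this
        exact_mod_cast this
      have h10 : (J : ℝ) * S * (∑ p ∈ (Ioc z (Q * (J + 1))).filter
          (fun p => p.Prime ∧ ¬ p ∣ Q), ((p : ℝ) ^ 2)⁻¹) ≤ J * S * (1 / z) := by gcongr
      have h11 : ((J : ℝ) + S) * (∑ p ∈ (Ioc z (Q * (J + 1))).filter
          (fun p => p.Prime ∧ ¬ p ∣ Q), ((p : ℝ))⁻¹) ≤ (J + S) * (J / (2 * z)) := by gcongr
      have e3 : (J : ℝ) * S * (1 / z) = J * S / z := by ring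
      linarith
    have hJ0 : (0 : ℝ) ≤ J := Nat.cast_nonneg _
    have hS0 : (0 : ℝ) ≤ S := Nat.cast_nonneg _
    have h12 : (J : ℝ) * ∑ p ∈ (Ioc z (C * S)).filter (fun p => p.Prime),
        (4 * ((S : ℝ) / (p : ℝ) ^ 2 + 1)) ≤ (J : ℝ) * (4 * (S : ℝ) / z + (S : ℝ) / z) :=
      mul_le_mul_of_nonneg_left hS1 hJ0
    refine (add_le_add h12 hS2).trans ?_
    have h6' : (J : ℝ) + 4 * Q * z + 1 ≤ S := by exact_mod_cast h6
    have hJ1 : (1 : ℝ) ≤ J := by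
      have : 1 ≤ J := le_trans (by nlinarith) hJ
      exact_mod_cast this
    have hQ1 : (1 : ℝ) ≤ Q := by exact_mod_cast hQ
    have e4 : (J : ℝ) * (4 * S / z + S / z) +
        (J * S / z + (J + S) * (J / (2 * z)) + Q * (J + 1)) =
        (12 * J * S + (J + S) * J + 2 * Q * (J + 1) * z) / (2 * z) := by
      field_simp
      ring
    have e5 : 8 / (z : ℝ) * J * S = (16 * J * S) / (2 * z) := by
      field_simp
      ring
    rw [e4, e5]
    apply div_le_div_of_nonneg_right _ (by positivity)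
    nlinarith [mul_nonneg hJ0 hS0, mul_nonneg hJ0 hJ0, mul_pos (lt_of_lt_of_le one_pos hQ1) hz0,
      mul_nonneg hJ0 (mul_pos (lt_of_lt_of_le one_pos hQ1) hz0).le]
  · intro j hj s hs hbad
    obtain ⟨p, hp, hd⟩ := hbad
    have hpz : ¬ (p ≤ z ∨ p ∣ Q) := fun h' => hloc j hj s p hp h' hd
    push Not at hpz
    have hm0 : 0 < M + Q * j := by omega
    have hmt : 2 * (M + Q * j) ≤ T + Q * s := by
      have := hmB j hj
      have h3 : 0 ≤ Q * s := Nat.zero_le _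
      omega
    by_cases hpm : p ∣ M + Q * j
    · right
      refine ⟨p, ?_, hpm, ?_⟩
      · rw [mem_filter, mem_Ioc]
        refine ⟨⟨hpz.1, ?_⟩, hp, hpz.2⟩
        have h7 := Nat.le_of_dvd hm0 hpm
        have : Q * j ≤ Q * J := Nat.mul_le_mul_left _ hj.le
        have e : Q * (J + 1) = Q * J + Q := by ring
        omega
      · have h2 : p ∣ (T + Q * s) ^ 4 := by
          rw [← hn j hj s]
          apply dvd_add
          · exact Dvd.dvd.mul_left ((dvd_pow_self _ two_ne_zero).trans hd) _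
          · exact dvd_pow hpm (by norm_num)
        exact hp.dvd_of_dvd_pow h2
    · left
      refine ⟨p, ?_, hpz.2, hpm, hd⟩
      rw [mem_filter, mem_Ioc]
      refine ⟨⟨hpz.1, ?_⟩, hp⟩
      have h7 := prime_range hp (by omega) hm0 hmt (hn j hj s) hd
      have h8 : Q * s ≤ Q * S := Nat.mul_le_mul_left _ hs.le
      omega
  · intro p hp j hj A hA
    have hp' := (mem_filter.1 hp).2
    have hpz := (mem_Ioc.1 (mem_filter.1 hp).1).1
    rcases A.eq_empty_or_nonempty with rfl | ⟨s₀, hs₀⟩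
    · rw [card_empty, Nat.cast_zero]
      positivity
    exact generic_card (n := n j) hp' (by omega) (hA s₀ hs₀).2.2.1 (hA s₀ hs₀).2.1 (hn j hj) A
      (fun s hs => ⟨(hA s hs).1, (hA s hs).2.2.2⟩)
  · intro p hp A hA
    exact card_lin (mem_filter.1 hp).2.1 (mem_filter.1 hp).2.2 A hA
  · intro p hp A hA
    exact card_lin (mem_filter.1 hp).2.1 (mem_filter.1 hp).2.2 A hA

end Pool.Agent.V7H17.CC
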