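import Pool.Agent.V7H17.CC.Sieve

/-!
# Squarefree values of `(t ^ 4 - m ^ 4) / w ^ 2` for several `m` at once
-/

set_option autoImplicit false

namespace Pool.Agent.V7H17.CC

open Finset Filter Topology

/-- the number of `s < S` for which `p ^ 2` divides `(T + Q s) ^ 2 - c`, `p` prime to `2 Q c` -/
lemma card_quad {p T Q S : ℕ} {c : ℤ} (hp : p.Prime) (hp2 : 2 < p) (hpQ : ¬ p ∣ Q)
    (hpc : ¬ (p : ℤ) ∣ c) (D : Finset ℕ)
    (hD : ∀ s ∈ D, s < S ∧ (p : ℤ) ^ 2 ∣ ((T : ℤ) + Q * s) ^ 2 - c) :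
    (D.card : ℝ) ≤ 2 * ((S : ℝ) / p ^ 2 + 1) := by
  classical
  have hpp : Prime (p : ℤ) := Nat.prime_iff_prime_int.1 hp
  have hQ' : ¬ (p : ℤ) ∣ (Q : ℤ) := by
    intro h
    exact hpQ (Int.natCast_dvd_natCast.1 h)
  have h2' : ¬ (p : ℤ) ∣ 2 := by
    intro h
    have h3 : p ∣ 2 := by exact_mod_cast h
    have := Nat.le_of_dvd (by norm_num) h3
    omega
  rcases D.eq_empty_or_nonempty with rfl | ⟨s₀, hs₀⟩
  · simp only [Finset.card_empty, Nat.cast_zero]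
    positivity
  obtain ⟨hs₀1, hs₀2⟩ := hD s₀ hs₀
  set t₀ : ℤ := (T : ℤ) + Q * s₀ with ht₀
  have ht₀p : ¬ (p : ℤ) ∣ t₀ := by
    intro h
    apply hpc
    have h1 : (p : ℤ) ∣ t₀ ^ 2 := dvd_pow h two_ne_zero
    have h2 : (p : ℤ) ∣ t₀ ^ 2 - c := (dvd_pow_self _ two_ne_zero).trans hs₀2
    have := dvd_sub h1 h2
    rwa [sub_sub_cancel] at this
  have key : ∀ x y : ℕ, (p : ℤ) ^ 2 ∣ (Q : ℤ) * ((x : ℤ) - y) → x ≡ y [MOD p ^ 2] := by
    intro x y h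
    have h1 := hpp.pow_dvd_of_dvd_mul_left 2 hQ' h
    rw [Nat.modEq_iff_dvd]
    push_cast
    rw [← dvd_neg, neg_sub]
    exact h1
  have hfin := card_two (S := S) (d := p ^ 2)
    (A := (range S).filter (fun s : ℕ => (p : ℤ) ^ 2 ∣ ((T : ℤ) + Q * s) - t₀))
    (B := (range S).filter (fun s : ℕ => (p : ℤ) ^ 2 ∣ ((T : ℤ) + Q * s) + t₀)) (D := D)
    ?_ ?_ ?_ ?_ ?_
  · push_cast at hfin
    exact hfin
  · intro s hs
    obtain ⟨h1, h2⟩ := hD s hs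
    have h3 : (p : ℤ) ^ 2 ∣ (((T : ℤ) + Q * s) - t₀) * (((T : ℤ) + Q * s) + t₀) := by
      have := dvd_sub h2 hs₀2
      have e : ((T : ℤ) + Q * s) ^ 2 - c - (t₀ ^ 2 - c) =
        (((T : ℤ) + Q * s) - t₀) * (((T : ℤ) + Q * s) + t₀) := by ring
      rwa [e] at this
    rw [mem_union, mem_filter, mem_filter]
    by_cases h4 : (p : ℤ) ∣ ((T : ℤ) + Q * s) - t₀
    · left
      refine ⟨mem_range.2 h1, ?_⟩
      refine hpp.pow_dvd_of_dvd_mul_right 2 ?_ h3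
      intro h5
      have h6 := dvd_sub h5 h4
      have e : ((T : ℤ) + Q * s) + t₀ - (((T : ℤ) + Q * s) - t₀) = 2 * t₀ := by ring
      rw [e] at h6
      rcases hpp.dvd_or_dvd h6 with h7 | h7
      · exact h2' h7
      · exact ht₀p h7
    · right
      exact ⟨mem_range.2 h1, hpp.pow_dvd_of_dvd_mul_left 2 h4 h3⟩
  · intro s hs
    exact mem_range.1 (mem_filter.1 hs).1
  · intro s hs
    exact mem_range.1 (mem_filter.1 hs).1
  · intro s hs s' hs'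
    apply key
    have := dvd_sub (mem_filter.1 hs).2 (mem_filter.1 hs').2
    have e : ((T : ℤ) + Q * s) - t₀ - (((T : ℤ) + Q * s') - t₀) = (Q : ℤ) * ((s : ℤ) - s') := by
      ring
    rwa [e] at this
  · intro s hs s' hs'
    apply key
    have := dvd_sub (mem_filter.1 hs).2 (mem_filter.1 hs').2
    have e : ((T : ℤ) + Q * s) + t₀ - (((T : ℤ) + Q * s') + t₀) = (Q : ℤ) * ((s : ℤ) - s') := by
      ring
    rwa [e] at this

/-- the number of `s < S` for which `p` divides `T + Q s` -/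
lemma card_lin {p T Q S : ℕ} (hp : p.Prime) (hpQ : ¬ p ∣ Q) (D : Finset ℕ)
    (hD : ∀ s ∈ D, s < S ∧ p ∣ T + Q * s) : (D.card : ℝ) ≤ (S : ℝ) / p + 1 := by
  have hpp : Prime (p : ℤ) := Nat.prime_iff_prime_int.1 hp
  refine card_congr_real (fun s hs => (hD s hs).1) ?_
  intro s hs s' hs'
  have h1 : (p : ℤ) ∣ (T : ℤ) + Q * s := by exact_mod_cast (hD s hs).2
  have h2 : (p : ℤ) ∣ (T : ℤ) + Q * s' := by exact_mod_cast (hD s' hs').2
  have h3 := dvd_sub h2 h1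
  have e : (T : ℤ) + Q * s' - ((T : ℤ) + Q * s) = (Q : ℤ) * ((s' : ℤ) - s) := by ring
  rw [e] at h3
  rcases hpp.dvd_or_dvd h3 with h4 | h4
  · exact absurd (Int.natCast_dvd_natCast.1 h4) hpQ
  · rw [Nat.modEq_iff_dvd]
    exact h4

/-- the number of `s < S` for which `p ^ 2` divides `T + Q s` -/
lemma card_lin_sq {p T Q S : ℕ} (hp : p.Prime) (hpQ : ¬ p ∣ Q) (D : Finset ℕ)
    (hD : ∀ s ∈ D, s < S ∧ (p : ℤ) ^ 2 ∣ (T : ℤ) + Q * s) :
    (D.card : ℝ) ≤ (S : ℝ) / p ^ 2 + 1 := by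
  have hpp : Prime (p : ℤ) := Nat.prime_iff_prime_int.1 hp
  have hQ' : ¬ (p : ℤ) ∣ (Q : ℤ) := by
    intro h
    exact hpQ (Int.natCast_dvd_natCast.1 h)
  have := card_congr_real (A := D) (S := S) (d := p ^ 2) (fun s hs => (hD s hs).1) ?_
  · push_cast at this
    exact this
  intro s hs s' hs'
  have h3 := dvd_sub (hD s' hs').2 (hD s hs).2
  have e : (T : ℤ) + Q * s' - ((T : ℤ) + Q * s) = (Q : ℤ) * ((s' : ℤ) - s) := by ring
  rw [e] at h3
  rw [Nat.modEq_iff_dvd]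
  push_cast
  exact hpp.pow_dvd_of_dvd_mul_left 2 hQ' h3

theorem quartic (k w T Q z B : ℕ) (m : Fin k → ℕ) (n : Fin k → ℕ → ℕ)
    (hm : ∀ i, 0 < m i) (hB : ∀ i, m i ≤ B) (hT : 2 * B ≤ T)
    (hn : ∀ i s, w ^ 2 * n i s + m i ^ 4 = (T + Q * s) ^ 4)
    (hloc : ∀ i p s, p.Prime → (p ≤ z ∨ p ∣ Q) → ¬ p ^ 2 ∣ n i s)
    (hexc : ∀ i p, p.Prime → z < p → ¬ p ∣ Q → p ∣ m i → p = m i)
    (hz : 20 * k ≤ z) (hz2 : 2 ≤ z) :
    ∀ᶠ S : ℕ in atTop, ∃ G : Finset ℕ,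
      (∀ s ∈ G, s < S ∧ ∀ i p, p.Prime → ¬ p ^ 2 ∣ n i s) ∧ (S : ℝ) / 2 ≤ (G.card : ℝ) := by
  -- factorisation
  have hfac : ∀ (i : Fin k) (s p : ℕ), p ^ 2 ∣ n i s →
      (p : ℤ) ^ 2 ∣ (((T : ℤ) + Q * s) ^ 2 - (m i : ℤ) ^ 2) *
        (((T : ℤ) + Q * s) ^ 2 - -(m i : ℤ) ^ 2) := by
    intro i s p h
    have h1 : (p : ℤ) ^ 2 ∣ (n i s : ℤ) := by exact_mod_cast h
    have h2 : (w : ℤ) ^ 2 * n i s + (m i : ℤ) ^ 4 = ((T : ℤ) + Q * s) ^ 4 := by
      exact_mod_cast hn i s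
    have e : (((T : ℤ) + Q * s) ^ 2 - (m i : ℤ) ^ 2) *
        (((T : ℤ) + Q * s) ^ 2 - -(m i : ℤ) ^ 2) = (w : ℤ) ^ 2 * n i s := by
      linear_combination -h2
    rw [e]
    exact Dvd.dvd.mul_left h1 _
  have hsplit : ∀ (i : Fin k) (s p : ℕ), p.Prime → 2 < p → ¬ p ∣ m i → p ^ 2 ∣ n i s →
      (p : ℤ) ^ 2 ∣ ((T : ℤ) + Q * s) ^ 2 - (m i : ℤ) ^ 2 ∨
      (p : ℤ) ^ 2 ∣ ((T : ℤ) + Q * s) ^ 2 - -(m i : ℤ) ^ 2 := by
    intro i s p hp hp2 hpm h
    have hpp : Prime (p : ℤ) := Nat.prime_iff_prime_int.1 hp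
    have h1 := hfac i s p h
    by_cases h2 : (p : ℤ) ∣ ((T : ℤ) + Q * s) ^ 2 - (m i : ℤ) ^ 2
    · left
      refine hpp.pow_dvd_of_dvd_mul_right 2 ?_ h1
      intro h3
      have h4 := dvd_sub h3 h2
      have e : ((T : ℤ) + Q * s) ^ 2 - -(m i : ℤ) ^ 2 - (((T : ℤ) + Q * s) ^ 2 - (m i : ℤ) ^ 2) =
        2 * (m i : ℤ) ^ 2 := by ring
      rw [e] at h4
      rcases hpp.dvd_or_dvd h4 with h5 | h5
      · have h6 : p ∣ 2 := by exact_mod_cast h5
        have := Nat.le_of_dvd (by norm_num) h6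
        omega
      · have h6 := hpp.dvd_of_dvd_pow h5
        exact hpm (Int.natCast_dvd_natCast.1 h6)
    · right
      exact hpp.pow_dvd_of_dvd_mul_left 2 h2 h1
  have hcpos : ∀ (i : Fin k) (p : ℕ), p.Prime → ¬ p ∣ m i → ¬ (p : ℤ) ∣ (m i : ℤ) ^ 2 := by
    intro i p hp hpm h
    have hpp : Prime (p : ℤ) := Nat.prime_iff_prime_int.1 hp
    exact hpm (Int.natCast_dvd_natCast.1 (hpp.dvd_of_dvd_pow h))
  refine sieve (ι := Fin k) (fun i p s => p ^ 2 ∣ n i s) 4 z (2 * (T + Q) + B + 1) m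
    (by omega) (by omega) (fun i p s hp hpz => hloc i p s hp (Or.inl hpz)) ?_ ?_ ?_ ?_
  · -- generic primes
    intro i p S hp hpz hpe A hA
    by_cases hpQ : p ∣ Q
    · have h0 : A = ∅ := by
        rw [eq_empty_iff_forall_notMem]
        intro s hs
        exact hloc i p s hp (Or.inr hpQ) (hA s hs).2
      rw [h0, card_empty, Nat.cast_zero]
      positivity
    have hpm : ¬ p ∣ m i := fun h => hpe (hexc i p hp hpz hpQ h)
    have hp2 : 2 < p := by omega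
    have hA1 := card_quad (S := S) (T := T) (c := (m i : ℤ) ^ 2) hp hp2 hpQ (hcpos i p hp hpm)
      (A.filter (fun s : ℕ => (p : ℤ) ^ 2 ∣ ((T : ℤ) + Q * s) ^ 2 - (m i : ℤ) ^ 2))
      (fun s hs => ⟨(hA s (mem_filter.1 hs).1).1, (mem_filter.1 hs).2⟩)
    have hA2 := card_quad (S := S) (T := T) (c := -(m i : ℤ) ^ 2) hp hp2 hpQ
      (by rw [dvd_neg]; exact hcpos i p hp hpm)
      (A.filter (fun s : ℕ => (p : ℤ) ^ 2 ∣ ((T : ℤ) + Q * s) ^ 2 - -(m i : ℤ) ^ 2))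
      (fun s hs => ⟨(hA s (mem_filter.1 hs).1).1, (mem_filter.1 hs).2⟩)
    have hsub : A ⊆
        (A.filter (fun s : ℕ => (p : ℤ) ^ 2 ∣ ((T : ℤ) + Q * s) ^ 2 - (m i : ℤ) ^ 2)) ∪
        (A.filter (fun s : ℕ => (p : ℤ) ^ 2 ∣ ((T : ℤ) + Q * s) ^ 2 - -(m i : ℤ) ^ 2)) := by
      intro s hs
      rw [mem_union, mem_filter, mem_filter]
      rcases hsplit i s p hp hp2 hpm (hA s hs).2 with h | h
      · exact Or.inl ⟨hs, h⟩
      · exact Or.inr ⟨hs, h⟩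
    have hcard := (card_le_card hsub).trans (card_union_le _ _)
    have hcard' : (A.card : ℝ) ≤
        ((A.filter (fun s : ℕ => (p : ℤ) ^ 2 ∣ ((T : ℤ) + Q * s) ^ 2 - (m i : ℤ) ^ 2)).card : ℝ) +
        ((A.filter (fun s : ℕ => (p : ℤ) ^ 2 ∣ ((T : ℤ) + Q * s) ^ 2 - -(m i : ℤ) ^ 2)).card : ℝ) := by
      exact_mod_cast hcard
    push_cast
    linarith
  · -- the exceptional prime
    intro i S hp hpz A hA
    by_cases hpQ : m i ∣ Q
    · have h0 : A = ∅ := by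
        rw [eq_empty_iff_forall_notMem]
        intro s hs
        exact hloc i (m i) s hp (Or.inr hpQ) (hA s hs).2
      rw [h0, card_empty, Nat.cast_zero]
      positivity
    have h1 := card_lin (S := S) (T := T) hp hpQ A (by
        intro s hs
        refine ⟨(hA s hs).1, ?_⟩
        have h2 : m i ∣ (T + Q * s) ^ 4 := by
          rw [← hn i s]
          apply dvd_add
          · exact Dvd.dvd.mul_left ((dvd_pow_self _ two_ne_zero).trans (hA s hs).2) _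
          · exact dvd_pow_self _ (by norm_num)
        exact hp.dvd_of_dvd_pow h2)
    refine h1.trans ?_
    have hz0 : (0 : ℝ) < z := by exact_mod_cast (by omega : 0 < z)
    have hpz' : (z : ℝ) ≤ m i := by exact_mod_cast hpz.le
    gcongr
  · -- the range of the primes
    intro i p s hp h
    have h : p ^ 2 ∣ n i s := h
    have hpz : ¬ (p ≤ z ∨ p ∣ Q) := fun h' => hloc i p s hp h' h
    push Not at hpz
    have hTs : T + Q * s ≤ (T + Q) * (s + 1) := by nlinarith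
    by_cases hpm : p ∣ m i
    · have h1 := hexc i p hp hpz.1 hpz.2 hpm
      have h2 : p ≤ B := h1 ▸ hB i
      nlinarith
    · have h1 : (p : ℤ) ^ 2 ≤ ((T : ℤ) + Q * s) ^ 2 + (m i : ℤ) ^ 2 := by
        have hmt : 2 * (m i : ℤ) ≤ (T : ℤ) + Q * s := by
          have h5 := hB i
          have h6 : 2 * m i ≤ T + Q * s := by nlinarith
          exact_mod_cast h6
        have hmi : (0 : ℤ) < m i := by exact_mod_cast hm i
        rcases hsplit i s p hp (by omega) hpm h with h2 | h2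
        · have h3 := Int.le_of_dvd (by nlinarith) h2
          nlinarith
        · have h3 := Int.le_of_dvd (by nlinarith) h2
          nlinarith
      have hmt : 2 * m i ≤ T + Q * s := by
        have := hB i
        nlinarith
      have h2 : p ^ 2 ≤ (T + Q * s) ^ 2 + m i ^ 2 := by exact_mod_cast h1
      have h3 : p ≤ 2 * (T + Q * s) := by
        by_contra hlt
        push Not at hlt
        nlinarith
      nlinarith
  · rw [Fintype.card_fin]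
    omega

end Pool.Agent.V7H17.CC
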