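import Mathlib

/-!
# An elementary sieve for squares of primes

Finitely many sequences of bad events, indexed by primes `p > z`, each of density `O(1 / p ^ 2)`
(with one exceptional prime of density at most `1 / z`), do not cover half of the integers if `z`
is large.
-/

set_option autoImplicit false

namespace Pool.Agent.V7H17.CC

open Finset Filter Topology

lemma card_congr {A : Finset ℕ} {S d : ℕ} (hA : ∀ s ∈ A, s < S)
    (h : ∀ s ∈ A, ∀ s' ∈ A, s ≡ s' [MOD d]) : A.card ≤ S / d + 1 := by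
  have h1 : A.card ≤ (Finset.range (S / d + 1)).card := by
    apply Finset.card_le_card_of_injOn (fun s => s / d)
    · intro s hs
      rw [Finset.mem_coe, Finset.mem_range]
      have := Nat.div_le_div_right (c := d) (hA s hs).le
      exact Nat.lt_succ_of_le this
    · intro s hs s' hs' hss
      have h2 := h s hs s' hs'
      unfold Nat.ModEq at h2
      have h3 : s / d = s' / d := hss
      rw [← Nat.div_add_mod s d, ← Nat.div_add_mod s' d, h2, h3]
  rwa [Finset.card_range] at h1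

lemma card_congr_real {A : Finset ℕ} {S d : ℕ} (hA : ∀ s ∈ A, s < S)
    (h : ∀ s ∈ A, ∀ s' ∈ A, s ≡ s' [MOD d]) : (A.card : ℝ) ≤ (S : ℝ) / d + 1 := by
  have h1 := card_congr hA h
  have h2 : ((S / d : ℕ) : ℝ) ≤ (S : ℝ) / d := Nat.cast_div_le
  have h3 : (A.card : ℝ) ≤ ((S / d + 1 : ℕ) : ℝ) := by exact_mod_cast h1
  push_cast at h3
  linarith

/-- two classes -/
lemma card_two {A B D : Finset ℕ} {S d : ℕ} (hD : D ⊆ A ∪ B)
    (hA : ∀ s ∈ A, s < S) (hB : ∀ s ∈ B, s < S)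
    (h : ∀ s ∈ A, ∀ s' ∈ A, s ≡ s' [MOD d]) (h' : ∀ s ∈ B, ∀ s' ∈ B, s ≡ s' [MOD d]) :
    (D.card : ℝ) ≤ 2 * ((S : ℝ) / d + 1) := by
  have h1 := card_congr_real hA h
  have h2 := card_congr_real hB h'
  have h3 : (D.card : ℝ) ≤ (A.card : ℝ) + (B.card : ℝ) := by
    exact_mod_cast (Finset.card_le_card hD).trans (Finset.card_union_le A B)
  linarith

lemma pi_small (C : ℕ) (hC : 0 < C) (ε : ℝ) (hε : 0 < ε) :
    ∀ᶠ S : ℕ in atTop, (Nat.primeCounting (C * S) : ℝ) ≤ ε * S := by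
  have h1 := Chebyshev.eventually_primeCounting_le (ε := 1) one_pos
  have h2 : Tendsto (fun S : ℕ => ((C * S : ℕ) : ℝ)) atTop atTop := by
    apply tendsto_natCast_atTop_atTop.comp
    exact tendsto_id.const_mul_atTop' hC
  have h3 := h2.eventually h1
  have h4 : ∀ᶠ S : ℕ in atTop, (Real.log 4 + 1) * C / ε ≤ Real.log ((C * S : ℕ) : ℝ) :=
    (Real.tendsto_log_atTop.comp h2).eventually_ge_atTop _
  filter_upwards [h3, h4, eventually_ge_atTop 2] with S h5 h6 h7
  rw [Nat.floor_natCast] at h5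
  refine h5.trans ?_
  have hl : 0 < Real.log ((C * S : ℕ) : ℝ) := by
    apply Real.log_pos
    have : 1 < C * S := by nlinarith
    exact_mod_cast this
  rw [div_le_iff₀ hl]
  rw [div_le_iff₀ hε] at h6
  push_cast at h6 ⊢
  have hS : (0 : ℝ) ≤ S := by positivity
  nlinarith

theorem sieve {ι : Type} [Fintype ι] (bad : ι → ℕ → ℕ → Prop) (D z C : ℕ) (e : ι → ℕ)
    (hz : 1 ≤ z) (hC : 0 < C)
    (h1 : ∀ i p s, p.Prime → p ≤ z → ¬ bad i p s)
    (h2' : ∀ i p S, p.Prime → z < p → p ≠ e i → ∀ A : Finset ℕ,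
      (∀ s ∈ A, s < S ∧ bad i p s) → (A.card : ℝ) ≤ D * ((S : ℝ) / p ^ 2 + 1))
    (h3' : ∀ i S, (e i).Prime → z < e i → ∀ A : Finset ℕ,
      (∀ s ∈ A, s < S ∧ bad i (e i) s) → (A.card : ℝ) ≤ (S : ℝ) / z + 1)
    (h4 : ∀ i p s, p.Prime → bad i p s → p ≤ C * (s + 1))
    (hk : 4 * (Fintype.card ι * (D + 1)) ≤ z) :
    ∀ᶠ S : ℕ in atTop, ∃ G : Finset ℕ, (∀ s ∈ G, s < S ∧ ∀ i p, p.Prime → ¬ bad i p s) ∧
      (S : ℝ) / 2 ≤ (G.card : ℝ) := by
  classical
  have h2 : ∀ i p S, p.Prime → z < p → p ≠ e i →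
      (((range S).filter (fun s => bad i p s)).card : ℝ) ≤ D * ((S : ℝ) / p ^ 2 + 1) :=
    fun i p S hp hz he => h2' i p S hp hz he _
      (fun s hs => ⟨mem_range.1 (mem_filter.1 hs).1, (mem_filter.1 hs).2⟩)
  have h3 : ∀ i S, (e i).Prime → z < e i →
      (((range S).filter (fun s => bad i (e i) s)).card : ℝ) ≤ (S : ℝ) / z + 1 :=
    fun i S hp hz => h3' i S hp hz _
      (fun s hs => ⟨mem_range.1 (mem_filter.1 hs).1, (mem_filter.1 hs).2⟩)
  set k := Fintype.card ι with hkdef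
  have hz0 : (0 : ℝ) < z := by exact_mod_cast hz
  have hε : (0 : ℝ) < 1 / (8 * (k * (D : ℝ) + 1)) := by positivity
  filter_upwards [pi_small C hC _ hε, eventually_ge_atTop (8 * k + 1)] with S h5 h6
  refine ⟨(range S).filter (fun s => ∀ i p, p.Prime → ¬ bad i p s),
    fun s hs => ⟨mem_range.1 (mem_filter.1 hs).1, (mem_filter.1 hs).2⟩, ?_⟩
  -- the primes
  set P : Finset ℕ := (Ioc z (max z (C * S))).filter Nat.Prime with hP
  have hsub : (range S).filter (fun s => ¬ ∀ i p, p.Prime → ¬ bad i p s) ⊆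
      (univ : Finset ι).biUnion (fun i => P.biUnion (fun p => (range S).filter
        (fun s => bad i p s))) := by
    intro s hs
    rw [mem_filter, mem_range] at hs
    obtain ⟨hs1, hs2⟩ := hs
    push Not at hs2
    obtain ⟨i, p, hp, hb⟩ := hs2
    rw [mem_biUnion]
    refine ⟨i, mem_univ i, ?_⟩
    rw [mem_biUnion]
    refine ⟨p, ?_, mem_filter.2 ⟨mem_range.2 hs1, hb⟩⟩
    rw [hP, mem_filter, mem_Ioc]
    refine ⟨⟨?_, ?_⟩, hp⟩
    · by_contra hlt
      exact h1 i p s hp (not_lt.1 hlt) hb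
    · exact le_max_of_le_right ((h4 i p s hp hb).trans (Nat.mul_le_mul_left _ hs1))
  have hcard : (((range S).filter (fun s => ¬ ∀ i p, p.Prime → ¬ bad i p s)).card : ℝ) ≤
      ∑ i : ι, ∑ p ∈ P, (((range S).filter (fun s => bad i p s)).card : ℝ) := by
    have hh := (card_le_card hsub).trans (card_biUnion_le.trans
      (sum_le_sum fun i _ => card_biUnion_le))
    exact_mod_cast hh
  have hPcard : (P.card : ℝ) ≤ 1 / (8 * (k * (D : ℝ) + 1)) * S := by
    refine le_trans ?_ h5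
    have : P.card ≤ Nat.primeCounting (C * S) := by
      rw [← Nat.primesLE_card_eq_primeCounting]
      apply card_le_card
      intro p hp
      rw [hP, mem_filter, mem_Ioc] at hp
      rw [Nat.mem_primesLE]
      refine ⟨?_, hp.2⟩
      rcases le_max_iff.1 hp.1.2 with h | h
      · exact absurd h (not_le.2 hp.1.1)
      · exact h
    exact_mod_cast this
  have hsum : ∑ p ∈ P, ((p : ℝ) ^ 2)⁻¹ ≤ 1 / z := by
    have ha : ∑ p ∈ P, ((p : ℝ) ^ 2)⁻¹ ≤ ∑ p ∈ Ioc z (max z (C * S)), ((p : ℝ) ^ 2)⁻¹ :=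
      sum_le_sum_of_subset_of_nonneg (filter_subset _ _) (fun _ _ _ => by positivity)
    have hb : ∑ i ∈ Ioc z (max z (C * S)), (((i : ℝ)) ^ 2)⁻¹ ≤
        (z : ℝ)⁻¹ - ((max z (C * S) : ℕ) : ℝ)⁻¹ :=
      sum_Ioc_inv_sq_le_sub (by omega) (le_max_left _ _)
    have hc : (0 : ℝ) ≤ ((max z (C * S) : ℕ) : ℝ)⁻¹ := by positivity
    rw [one_div]
    linarith
  have hone : ∀ i : ι, ∑ p ∈ P, (((range S).filter (fun s => bad i p s)).card : ℝ) ≤
      D * (S : ℝ) / z + D * P.card + ((S : ℝ) / z + 1) := by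
    intro i
    have ha : ∑ p ∈ P, (((range S).filter (fun s => bad i p s)).card : ℝ) ≤
        ∑ p ∈ P, (D * ((S : ℝ) / p ^ 2 + 1) + if p = e i then (S : ℝ) / z + 1 else 0) := by
      apply sum_le_sum
      intro p hp
      rw [hP, mem_filter, mem_Ioc] at hp
      by_cases hpe : p = e i
      · rw [if_pos hpe]
        have := h3 i S (hpe ▸ hp.2) (hpe ▸ hp.1.1)
        rw [← hpe] at this
        have hpos : (0 : ℝ) ≤ D * ((S : ℝ) / p ^ 2 + 1) := by positivity
        linarith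
      · rw [if_neg hpe, add_zero]
        exact h2 i p S hp.2 hp.1.1 hpe
    refine ha.trans ?_
    rw [sum_add_distrib]
    have hb : ∑ p ∈ P, (D : ℝ) * ((S : ℝ) / p ^ 2 + 1) =
        D * S * ∑ p ∈ P, ((p : ℝ) ^ 2)⁻¹ + D * P.card := by
      calc ∑ p ∈ P, (D : ℝ) * ((S : ℝ) / p ^ 2 + 1) =
          ∑ p ∈ P, ((D : ℝ) * S * ((p : ℝ) ^ 2)⁻¹ + D) := by
            apply sum_congr rfl
            intro p _
            rw [div_eq_mul_inv]
            ring
        _ = D * S * ∑ p ∈ P, ((p : ℝ) ^ 2)⁻¹ + D * P.card := by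
            rw [sum_add_distrib, ← mul_sum, sum_const, nsmul_eq_mul]
            ring
    have hc : ∑ p ∈ P, (if p = e i then (S : ℝ) / z + 1 else 0) ≤ (S : ℝ) / z + 1 := by
      rw [← sum_filter]
      have h7 : (P.filter (fun p => p = e i)).card ≤ 1 := by
        rw [card_le_one]
        intro a ha b hb
        rw [(mem_filter.1 ha).2, (mem_filter.1 hb).2]
      rw [sum_const, nsmul_eq_mul]
      have h8 : (0 : ℝ) ≤ (S : ℝ) / z + 1 := by positivity
      have h9 : ((P.filter (fun p => p = e i)).card : ℝ) ≤ 1 := by exact_mod_cast h7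
      nlinarith
    have hd : D * S * ∑ p ∈ P, ((p : ℝ) ^ 2)⁻¹ ≤ D * (S : ℝ) / z := by
      calc D * (S : ℝ) * ∑ p ∈ P, ((p : ℝ) ^ 2)⁻¹ ≤ D * S * (1 / z) := by gcongr
        _ = D * (S : ℝ) / z := by ring
    linarith
  have htot : (((range S).filter (fun s => ¬ ∀ i p, p.Prime → ¬ bad i p s)).card : ℝ) ≤
      (S : ℝ) / 2 := by
    refine hcard.trans ?_
    refine (sum_le_sum fun i _ => hone i).trans ?_
    rw [sum_const, nsmul_eq_mul, card_univ, ← hkdef]
    have hk' : 4 * ((k : ℝ) * (D + 1)) ≤ z := by exact_mod_cast hk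
    have hA : (k : ℝ) * (D * (S : ℝ) / z + (S : ℝ) / z) ≤ S / 4 := by
      have : (k : ℝ) * (D * (S : ℝ) / z + (S : ℝ) / z) = (k * (D + 1)) * S / z := by ring
      rw [this, div_le_iff₀ hz0]
      have hS : (0 : ℝ) ≤ S := by positivity
      nlinarith
    have hB : (k : ℝ) * (D * P.card) ≤ S / 8 := by
      have h7 : (k : ℝ) * (D * P.card) ≤ (k * D) * (1 / (8 * (k * (D : ℝ) + 1)) * S) := by
        rw [← mul_assoc]
        gcongr
      refine h7.trans ?_
      have h8 : (0 : ℝ) < 8 * (k * (D : ℝ) + 1) := by positivity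
      have h9 : ((k : ℝ) * D) * (1 / (8 * (k * (D : ℝ) + 1)) * S) =
          (k * D * S) / (8 * (k * (D : ℝ) + 1)) := by ring
      rw [h9, div_le_iff₀ h8]
      have hS : (0 : ℝ) ≤ S := by positivity
      nlinarith
    have hC' : (k : ℝ) ≤ S / 8 := by
      have : (8 * k + 1 : ℝ) ≤ S := by exact_mod_cast h6
      linarith
    nlinarith
  have hadd := card_filter_add_card_filter_not (s := range S)
    (fun s => ∀ i p, p.Prime → ¬ bad i p s)
  rw [card_range] at hadd
  have hadd' : (((range S).filter (fun s => ∀ i p, p.Prime → ¬ bad i p s)).card : ℝ) +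
      (((range S).filter (fun s => ¬ ∀ i p, p.Prime → ¬ bad i p s)).card : ℝ) = S := by
    exact_mod_cast hadd
  linarith

end Pool.Agent.V7H17.CC
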